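import Pool.Agent.TH924.PC.Dev
import Pool.Agent.Y854.GM.WinV

set_option autoImplicit false

/-!
Windows without parameters with few bad primes, from a sieve bound. The argument is that of the hand-in
`MP_aa40d3_nt.WindowsOfAccessoryParameters` (written there for scalar operators), for any family of sums.
-/

namespace Pool.Agent.V11263.PCu

open Finset Filter

/-- the exponent of convergence of the sequence `v` is at most `τ` -/
def ExpLe (v : ℕ → ℝ) (τ : ℝ) : Prop := ∀ t : ℝ, τ < t → Summable (fun n : ℕ => (v n) ^ (-t))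

lemma fin_int (P : ℤ → Prop) (X : ℝ) : {q : ℤ | P q ∧ |(q : ℝ)| ≤ X}.Finite := by
  refine (Set.finite_Icc (-⌈X⌉) ⌈X⌉).subset fun q hq => ?_
  have h1 := abs_le.1 hq.2
  have h2 := Int.le_ceil X
  constructor
  · have : (-(⌈X⌉ : ℝ)) ≤ (q : ℝ) := by linarith [h1.1]
    exact_mod_cast this
  · have : (q : ℝ) ≤ (⌈X⌉ : ℝ) := by linarith [h1.2]
    exact_mod_cast this

theorem windows_of_sieve (S : ℤ → ℝ → ℝ) (hmono : ∀ q Y Z, Y ≤ Z → S q Y ≤ S q Z) {m β : ℝ} (hm1 : 1 < m)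
    (hβ1 : β ≤ 1)
    (hsieve : ∀ θ K : ℝ, 1 < θ * m → ∃ C : ℝ, ∀ X : ℝ, 2 ≤ X →
      (Set.ncard {q : ℤ | |(q : ℝ)| ≤ X ∧ S q (X ^ θ) ≤ (1 - β) * θ * Real.log X + K} : ℝ) ≤ C * X ^ θ)
    (v : ℕ → ℝ) (τ θ : ℝ) (hv : ∀ k, 1 ≤ v k) (hτ : 0 ≤ τ) (hE : ExpLe v τ) (hθ1 : θ < 1) :
    ∃ E : Set ℝ, dimH E ≤ ENNReal.ofReal ((1 / m + τ) / (1 - θ)) ∧
      ∀ α : ℝ, 0 < α → α ∉ E → ∀ ρ K : ℝ, 1 / m < ρ → ∃ k₀ : ℕ, ∀ k : ℕ, k₀ ≤ k → ∀ q : ℤ,
        |(|(q : ℝ)|) - α * v k| ≤ (v k) ^ θ →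
        (1 - β) * (1 / m) * Real.log (v k) + K < S q ((v k) ^ ρ) := by
  classical
  have hs0 : 0 < 1 / m := by positivity
  have htv : Filter.Tendsto v Filter.atTop Filter.atTop :=
    Pool.Agent.Y854.GM.tendsto_of_expLe (fun k => lt_of_lt_of_le one_pos (hv k)) hτ hE
  have hall : ∀ j : ℕ, ∃ E : Set ℝ, dimH E ≤ ENNReal.ofReal ((1 / m + τ) / (1 - θ)) ∧
      ∀ α : ℝ, 0 < α → α ∉ E → ∃ k₀ : ℕ, ∀ k : ℕ, k₀ ≤ k →
        ∀ q ∈ {q : ℤ | S q ((v k) ^ (1 / m + 1 / ((j : ℝ) + 1))) ≤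
          (1 - β) * (1 / m) * Real.log (v k) + j}, 1 * (v k) ^ θ < |(|(q : ℝ)|) - α * v k| := by
    intro j
    set ρ : ℝ := 1 / m + 1 / ((j : ℝ) + 1) with hρ
    have hρ1 : 1 / m < ρ := by
      have : (0 : ℝ) < 1 / ((j : ℝ) + 1) := by positivity
      linarith
    refine Pool.Agent.Y854.GM.windowsV (fun k => {q : ℤ | S q ((v k) ^ ρ) ≤
      (1 - β) * (1 / m) * Real.log (v k) + j}) (fun _ q => |(q : ℝ)|) 1 hv hτ hE hs0.le hθ1 ?_
    intro A ε hε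
    set θ' : ℝ := 1 / m + min ε ((ρ - 1 / m) / 2) with hθ'
    have hmin : 0 < min ε ((ρ - 1 / m) / 2) := lt_min hε (by linarith)
    have hθ'1 : 1 / m < θ' := by linarith
    have hθ'2 : θ' ≤ 1 / m + ε := by linarith [min_le_left ε ((ρ - 1 / m) / 2)]
    have hθ'3 : θ' < ρ := by linarith [min_le_right ε ((ρ - 1 / m) / 2)]
    have hcond : 1 < θ' * m := by
      have : 1 / m * m = 1 := by field_simp
      nlinarith
    obtain ⟨C, hC⟩ := hsieve θ' j hcond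
    have hA0 : (0 : ℝ) ≤ A := Nat.cast_nonneg A
    have hlarge : ∀ᶠ k : ℕ in Filter.atTop, (((A : ℝ) + 1) * v k) ^ θ' ≤ (v k) ^ ρ := by
      have h1 : Filter.Tendsto (fun k => (v k) ^ (ρ - θ')) Filter.atTop Filter.atTop :=
        (tendsto_rpow_atTop (by linarith)).comp htv
      filter_upwards [h1.eventually_ge_atTop (((A : ℝ) + 1) ^ θ')] with k hk
      have hk0 : 0 < v k := lt_of_lt_of_le one_pos (hv k)
      rw [Real.mul_rpow (by positivity) hk0.le]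
      calc ((A : ℝ) + 1) ^ θ' * (v k) ^ θ' ≤ (v k) ^ (ρ - θ') * (v k) ^ θ' :=
            mul_le_mul_of_nonneg_right hk (Real.rpow_nonneg hk0.le _)
        _ = (v k) ^ ρ := by
            rw [← Real.rpow_add hk0]
            congr 1
            ring
    obtain ⟨k₁, hk₁⟩ := (hlarge.and (htv.eventually_ge_atTop 2)).exists_forall_of_atTop
    refine ⟨|C| * ((A : ℝ) + 1) ^ θ', k₁, fun k hk => ⟨fin_int _ _, ?_⟩⟩
    obtain ⟨hr1, hr2⟩ := hk₁ k hk
    have hk0 : 0 < v k := lt_of_lt_of_le one_pos (hv k)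
    have hk1 : 1 ≤ v k := hv k
    have hX2 : 2 ≤ ((A : ℝ) + 1) * v k := by nlinarith
    have hXv : v k ≤ ((A : ℝ) + 1) * v k := by nlinarith
    have h3 := hC (((A : ℝ) + 1) * v k) hX2
    have hsub : {q : ℤ | q ∈ {q : ℤ | S q ((v k) ^ ρ) ≤
        (1 - β) * (1 / m) * Real.log (v k) + j} ∧ |(q : ℝ)| ≤ ((A : ℝ) + 1) * v k} ⊆
        {q : ℤ | |(q : ℝ)| ≤ ((A : ℝ) + 1) * v k ∧
          S q ((((A : ℝ) + 1) * v k) ^ θ') ≤
            (1 - β) * θ' * Real.log (((A : ℝ) + 1) * v k) + j} := by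
      rintro q ⟨hq1, hq2⟩
      refine ⟨hq2, (hmono q _ _ hr1).trans (le_trans hq1 ?_)⟩
      have hl1 : Real.log (v k) ≤ Real.log (((A : ℝ) + 1) * v k) := Real.log_le_log hk0 hXv
      have hl0 : 0 ≤ Real.log (v k) := Real.log_nonneg hk1
      have h5 : (1 - β) * (1 / m) * Real.log (v k) ≤ (1 - β) * θ' * Real.log (((A : ℝ) + 1) * v k) := by
        apply mul_le_mul _ hl1 hl0
        · exact mul_nonneg (by linarith) (by linarith)
        · exact mul_le_mul_of_nonneg_left hθ'1.le (by linarith)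
      linarith
    have hfin : {q : ℤ | |(q : ℝ)| ≤ ((A : ℝ) + 1) * v k ∧
          S q ((((A : ℝ) + 1) * v k) ^ θ') ≤
            (1 - β) * θ' * Real.log (((A : ℝ) + 1) * v k) + j}.Finite := by
      refine (fin_int (fun _ => True) (((A : ℝ) + 1) * v k)).subset fun q hq => ⟨trivial, hq.1⟩
    have h4 : (({q : ℤ | q ∈ {q : ℤ | S q ((v k) ^ ρ) ≤
        (1 - β) * (1 / m) * Real.log (v k) + j} ∧ |(q : ℝ)| ≤ ((A : ℝ) + 1) * v k}.ncard : ℕ) : ℝ) ≤
        C * (((A : ℝ) + 1) * v k) ^ θ' :=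
      le_trans (by exact_mod_cast Set.ncard_le_ncard hsub hfin) h3
    refine h4.trans ?_
    rw [Real.mul_rpow (by positivity) hk0.le, ← mul_assoc]
    apply mul_le_mul
    · exact mul_le_mul_of_nonneg_right (le_abs_self C) (by positivity)
    · exact Real.rpow_le_rpow_of_exponent_le hk1 hθ'2
    · positivity
    · positivity
  choose E hE1 hE2 using hall
  refine ⟨⋃ j, E j, ?_, fun α hα hαE ρ K hρ => ?_⟩
  · rw [dimH_iUnion]
    exact iSup_le hE1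
  · obtain ⟨j, hj⟩ := exists_nat_ge (max K (1 / (ρ - 1 / m)))
    have hjK : K ≤ j := (le_max_left _ _).trans hj
    have hjρ : 1 / ((j : ℝ) + 1) ≤ ρ - 1 / m := by
      have h1 : 0 < ρ - 1 / m := by linarith
      have h2 : 1 / (ρ - 1 / m) ≤ (j : ℝ) + 1 := by linarith [(le_max_right K (1 / (ρ - 1 / m))).trans hj]
      rw [div_le_iff₀ h1] at h2
      rw [div_le_iff₀ (by positivity)]
      linarith
    obtain ⟨k₀, hk⟩ := hE2 j α hα (fun h => hαE (Set.mem_iUnion.2 ⟨j, h⟩))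
    refine ⟨k₀, fun k hk1 q hw => ?_⟩
    by_contra hcon
    push Not at hcon
    refine absurd (hk k hk1 q ?_) (not_lt.2 (by rw [one_mul]; exact hw))
    refine le_trans (hmono q _ _ ?_) (hcon.trans ?_)
    · exact Real.rpow_le_rpow_of_exponent_le (hv k) (by linarith)
    · linarith

end Pool.Agent.V11263.PCu
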