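import Mathlib

set_option autoImplicit false

/-!
Number fields: the norms of the prime ideals over a rational prime and of those which contain a given integer.
-/

namespace Pool.Agent.V11263.PCu

open Finset NumberField Ideal

variable (K : Type*) [Field K] [NumberField K]

/-- The prime ideals of `𝓞 K` over the prime number `p`. -/
noncomputable def po (p : ℕ) : Finset (Ideal (𝓞 K)) :=
  IsDedekindDomain.primesOverFinset (Ideal.span {(p : ℤ)}) (𝓞 K)

variable {K}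

lemma mem_po {p : ℕ} (hp : p.Prime) {P : Ideal (𝓞 K)} :
    P ∈ po K p ↔ P.IsPrime ∧ P.LiesOver (Ideal.span {(p : ℤ)}) := by
  have hp0 : (Ideal.span {(p : ℤ)}) ≠ ⊥ := by
    rw [Ne, Ideal.span_singleton_eq_bot]
    exact_mod_cast hp.ne_zero
  have := Fact.mk hp
  have : (Ideal.span {(p : ℤ)}).IsMaximal := Int.ideal_span_isMaximal_of_prime p
  exact IsDedekindDomain.mem_primesOverFinset_iff hp0 _

lemma sum_log_po : ∃ N₁ : ℕ, ∀ p : ℕ, p.Prime → N₁ < p →
    ∑ P ∈ po K p, Real.log (absNorm P) = Module.finrank ℚ K * Real.log p := by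
  refine ⟨(NumberField.discr K).natAbs, fun p hp hN => ?_⟩
  have hpZ : Prime (p : ℤ) := Nat.prime_iff_prime_int.1 hp
  have hp0 : (Ideal.span {(p : ℤ)}) ≠ ⊥ := by
    rw [Ne, Ideal.span_singleton_eq_bot]
    exact_mod_cast hp.ne_zero
  have := Fact.mk hp
  have hmax : (Ideal.span {(p : ℤ)}).IsMaximal := Int.ideal_span_isMaximal_of_prime p
  have hd : ¬ (p : ℤ) ∣ NumberField.discr K := by
    intro h
    have h1 : p ∣ (NumberField.discr K).natAbs := Int.natCast_dvd.1 h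
    have h2 : 0 < (NumberField.discr K).natAbs := Int.natAbs_pos.2 (NumberField.discr_ne_zero K)
    exact absurd (Nat.le_of_dvd h2 h1) (by omega)
  have hun := (NumberField.not_dvd_discr_iff_isUnramifiedIn K (𝓞 K) hpZ).1 hd
  have hsum := Ideal.sum_ramification_inertia (𝓞 K) ℚ K (p := Ideal.span {(p : ℤ)}) hp0
  rw [← hsum, Nat.cast_sum, Finset.sum_mul]
  refine Finset.sum_congr rfl fun P hP => ?_
  obtain ⟨h1, h2⟩ := (mem_po hp).1 hP
  have he : ramificationIdx' (Ideal.span {(p : ℤ)}) P = 1 := by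
    rw [ramificationIdx'_eq_ramificationIdx _ _ hp0]
    exact hun.ramificationIdx_eq_one h2
  rw [he, one_mul, absNorm_eq_pow_inertiaDeg' P hp]
  push_cast
  rw [Real.log_pow]

/-- Distinct prime ideals which contain `x`. -/
lemma prod_norm_le {x : 𝓞 K} (hx : x ≠ 0) (Q : Finset (Ideal (𝓞 K))) (hQ : ∀ P ∈ Q, P.IsPrime ∧ P ≠ ⊥)
    (hxQ : ∀ P ∈ Q, x ∈ P) : ∏ P ∈ Q, absNorm P ≤ (Algebra.norm ℤ x).natAbs := by
  classical
  have h1 : (∏ P ∈ Q, P) ∣ Ideal.span {x} := by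
    refine Finset.prod_primes_dvd _ (fun P hP => ?_) (fun P hP => ?_)
    · exact (Ideal.prime_iff_isPrime (hQ P hP).2).2 (hQ P hP).1
    · rw [Ideal.dvd_span_singleton]
      exact hxQ P hP
  have h2 := Ideal.absNorm_dvd_absNorm_of_le (Ideal.dvd_iff_le.1 h1)
  rw [map_prod, absNorm_span_singleton] at h2
  refine Nat.le_of_dvd ?_ h2
  rw [Int.natAbs_pos]
  exact (Algebra.norm_ne_zero_iff).2 hx

lemma norm_le {x : 𝓞 K} {B : ℝ} (hB : ∀ σ : K →+* ℂ, ‖σ x‖ ≤ B) :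
    ((Algebra.norm ℤ x).natAbs : ℝ) ≤ B ^ Module.finrank ℚ K := by
  have h1 : ((Algebra.norm ℤ x).natAbs : ℝ) = ‖(algebraMap ℚ ℂ) (Algebra.norm ℚ (x : K))‖ := by
    rw [← Algebra.coe_norm_int, Nat.cast_natAbs]
    simp
  rw [h1, Algebra.norm_eq_prod_embeddings ℚ ℂ (x : K), norm_prod]
  calc ∏ σ : K →ₐ[ℚ] ℂ, ‖σ (x : K)‖ ≤ ∏ _σ : K →ₐ[ℚ] ℂ, B :=
        Finset.prod_le_prod (fun _ _ => norm_nonneg _) fun σ _ => hB σ.toRingHom
    _ = B ^ Module.finrank ℚ K := by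
        rw [Finset.prod_const, Finset.card_univ, AlgHom.card]

lemma po_inj {p p' : ℕ} (hp : p.Prime) (hp' : p'.Prime) {P : Ideal (𝓞 K)} (h : P ∈ po K p) (h' : P ∈ po K p') :
    p = p' := by
  obtain ⟨_, h2⟩ := (mem_po hp).1 h
  obtain ⟨_, h2'⟩ := (mem_po hp').1 h'
  have e : Ideal.span {(p : ℤ)} = Ideal.span {(p' : ℤ)} := by
    rw [h2.over, h2'.over]
  have h3 := congrArg absNorm e
  rw [absNorm_span_natCast, absNorm_span_natCast] at h3
  simpa using h3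

lemma po_ne_bot {p : ℕ} (hp : p.Prime) {P : Ideal (𝓞 K)} (h : P ∈ po K p) : P.IsPrime ∧ P ≠ ⊥ := by
  obtain ⟨h1, h2⟩ := (mem_po hp).1 h
  refine ⟨h1, fun h0 => ?_⟩
  have h3 : Ideal.span {(p : ℤ)} = P.under ℤ := h2.over
  have h4 : (p : ℤ) ∈ P.under ℤ := by
    rw [← h3]
    exact Ideal.mem_span_singleton_self _
  rw [Ideal.mem_comap, h0, Ideal.mem_bot] at h4
  have h5 : ((p : ℕ) : 𝓞 K) = 0 := by simpa using h4
  exact hp.ne_zero (by exact_mod_cast h5)

end Pool.Agent.V11263.PCu
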