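import Pool.Agent.V11263.PCu.WS
import Pool.Agent.V11263.PCu.NF
import Pool.Agent.Helper923.HMertens

set_option autoImplicit false

/-!
The larger sieve over a number field: elements which are good modulo the prime ideals of large weight.
-/

namespace Pool.Agent.V11263.PCu

open Finset NumberField Ideal

lemma quad (a b c : ℝ) (ha : 0 < a) : ∃ L₀ : ℝ, ∀ L : ℝ, L₀ ≤ L → 0 ≤ a * L ^ 2 + b * L + c := by
  refine ⟨max 1 ((|b| + |c|) / a), fun L hL => ?_⟩
  have h1 : 1 ≤ L := (le_max_left _ _).trans hL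
  have h2 : (|b| + |c|) / a ≤ L := (le_max_right _ _).trans hL
  rw [div_le_iff₀ ha] at h2
  have h3 : -|b| ≤ b := neg_abs_le b
  have h4 : -|c| ≤ c := neg_abs_le c
  have h5 : 0 ≤ |c| := abs_nonneg c
  have h6 : 0 ≤ |b| := abs_nonneg b
  nlinarith [mul_le_mul_of_nonneg_right h2 (by linarith : (0 : ℝ) ≤ L), mul_nonneg h5 (by linarith : (0 : ℝ) ≤ L - 1),
    mul_nonneg (by linarith : (0 : ℝ) ≤ b + |b|) (by linarith : (0 : ℝ) ≤ L)]

variable {K : Type*} [Field K] [NumberField K]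

/-- The elements of bounded house form a finite set. -/
lemma fin_house (B : ℝ) : {a : 𝓞 K | ∀ σ : K →+* ℂ, ‖σ a‖ ≤ B}.Finite := by
  have h := NumberField.Embeddings.finite_of_norm_le K ℂ B
  refine Set.Finite.of_finite_image (f := fun a : 𝓞 K => (a : K)) (h.subset ?_) ?_
  · rintro _ ⟨a, ha, rfl⟩
    exact ⟨a.isIntegral_coe, ha⟩
  · intro a _ b _ hab
    exact RingOfIntegers.ext hab

open Classical in
/-- The sum over the bad prime ideals. -/
noncomputable def badK (P₀ : ℕ) (G : ℕ → Ideal (𝓞 K) → 𝓞 K → Prop) (a : 𝓞 K) (Y : ℝ) : ℝ :=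
  ∑ p ∈ Icc 1 ⌊Y⌋₊ with p.Prime ∧ P₀ < p, ∑ P ∈ po K p with ¬ G p P a, Real.log (absNorm P) / p

/-- At most `d p / n` classes modulo the prime ideals over `p`. -/
def ClsK (P₀ : ℕ) (G : ℕ → Ideal (𝓞 K) → 𝓞 K → Prop) (n d : ℕ) : Prop :=
  ∀ p : ℕ, p.Prime → P₀ < p → ∀ P ∈ po K p, ∀ S : Finset (𝓞 K), (∀ a ∈ S, G p P a) →
    (∀ a ∈ S, ∀ b ∈ S, a - b ∈ P → a = b) → S.card * n ≤ d * p

lemma log_norm_nonneg (P : Ideal (𝓞 K)) : 0 ≤ Real.log (absNorm P) := Real.log_natCast_nonneg _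

open Classical in
/-- **The larger sieve over a number field.** -/
theorem nf_sieve (n d P₀ : ℕ) (hd : 1 ≤ d) {β θ : ℝ} (K' : ℝ) (hβ0 : 0 < β) (hβ1 : β ≤ 1)
    (hθ0 : 0 < θ) (hθ : (d : ℝ) < n * β ^ 2 * θ) :
    ∃ C : ℝ, ∀ G : ℕ → Ideal (𝓞 K) → 𝓞 K → Prop, ClsK P₀ G n d → ∀ X : ℝ, 2 ≤ X →
      (Set.ncard {a : 𝓞 K | (∀ σ : K →+* ℂ, ‖σ a‖ ≤ X) ∧
        badK P₀ G a (X ^ θ) ≤ (1 - β) * Module.finrank ℚ K * θ * Real.log X + K'} : ℝ) ≤ C * X ^ θ := by
  obtain ⟨N₁, hN₁⟩ := sum_log_po (K := K)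
  obtain ⟨C₀, hC₀⟩ := Pool.Agent.Helper923.HMertens.mertens_log
  have hC₀0 : 0 ≤ C₀ := (abs_nonneg _).trans (hC₀ 1 le_rfl)
  obtain ⟨D, hD⟩ : ∃ D : ℝ, D = Module.finrank ℚ K := ⟨_, rfl⟩
  have hD0 : 1 ≤ D := by
    rw [hD]
    exact_mod_cast Module.finrank_pos (R := ℚ) (M := K)
  rw [← hD]
  set P₁ : ℕ := max P₀ N₁ with hP₁
  obtain ⟨C₁, hC₁⟩ : ∃ C₁ : ℝ, C₁ = ∑ p ∈ (Icc 1 P₁).filter Nat.Prime, Real.log p / p := ⟨_, rfl⟩
  have hC₁0 : 0 ≤ C₁ := by
    rw [hC₁]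
    exact sum_nonneg fun p _ => div_nonneg (Real.log_natCast_nonneg p) (Nat.cast_nonneg p)
  have hl2 : 0 < Real.log 2 := Real.log_pos (by norm_num)
  obtain ⟨C₂, hC₂⟩ : ∃ C₂ : ℝ, C₂ = D * (Real.log 2 + C₀ + C₁) + |K'| := ⟨_, rfl⟩
  have hn0 : (0 : ℝ) ≤ n := Nat.cast_nonneg n
  have hd0 : (0 : ℝ) ≤ d := Nat.cast_nonneg d
  obtain ⟨L₀, hL₀⟩ := quad (D ^ 2 * θ * (n * β ^ 2 * θ - d))
    (-(2 * n * β * D * θ * C₂) - d * D ^ 2 * (θ * Real.log 2 + C₀) - D * θ)
    (n * C₂ ^ 2 - d * D ^ 2 * C₀ * Real.log 2 - D * C₀) (by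
      have : 0 < n * β ^ 2 * θ - d := by linarith
      positivity)
  obtain ⟨L₁, hL₁⟩ : ∃ L₁ : ℝ, L₁ = max (max L₀ (C₂ / (β * D * θ))) 1 := ⟨_, rfl⟩
  have hL1a : L₀ ≤ L₁ := by rw [hL₁]; exact (le_max_left _ _).trans (le_max_left _ _)
  have hL1b : C₂ / (β * D * θ) ≤ L₁ := by rw [hL₁]; exact (le_max_right _ _).trans (le_max_left _ _)
  have hL1c : 1 ≤ L₁ := by rw [hL₁]; exact le_max_right _ _
  set M : ℝ := ({a : 𝓞 K | ∀ σ : K →+* ℂ, ‖σ a‖ ≤ Real.exp L₁}.ncard : ℝ) with hM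
  refine ⟨max M (d * (D * Real.log 4)), fun G hG X hX => ?_⟩
  have hX0 : 0 < X := by linarith
  have hXθ : 1 ≤ X ^ θ := Real.one_le_rpow (by linarith) hθ0.le
  have hM0 : 0 ≤ M := Nat.cast_nonneg _
  rcases lt_or_ge (Real.log X) L₁ with hsmall | hlarge
  · have hXe : X ≤ Real.exp L₁ := by
      rw [← Real.log_le_log_iff hX0 (Real.exp_pos _), Real.log_exp]
      exact hsmall.le
    have h1 : ({a : 𝓞 K | (∀ σ : K →+* ℂ, ‖σ a‖ ≤ X) ∧
        badK P₀ G a (X ^ θ) ≤ (1 - β) * D * θ * Real.log X + K'}.ncard : ℝ) ≤ M := by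
      have hsub : {a : 𝓞 K | (∀ σ : K →+* ℂ, ‖σ a‖ ≤ X) ∧
          badK P₀ G a (X ^ θ) ≤ (1 - β) * D * θ * Real.log X + K'} ⊆
          {a : 𝓞 K | ∀ σ : K →+* ℂ, ‖σ a‖ ≤ Real.exp L₁} := fun a ha σ => (ha.1 σ).trans hXe
      rw [hM]
      exact_mod_cast Set.ncard_le_ncard hsub (fin_house _)
    calc _ ≤ M := h1
      _ ≤ max M (d * (D * Real.log 4)) * 1 := by rw [mul_one]; exact le_max_left _ _
      _ ≤ _ := mul_le_mul_of_nonneg_left hXθ (hM0.trans (le_max_left _ _))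
  -- large `X`
  have hfinS : {a : 𝓞 K | (∀ σ : K →+* ℂ, ‖σ a‖ ≤ X) ∧
      badK P₀ G a (X ^ θ) ≤ (1 - β) * D * θ * Real.log X + K'}.Finite :=
    (fin_house X).subset fun a ha => ha.1
  rw [Set.ncard_eq_toFinset_card _ hfinS]
  set S := hfinS.toFinset with hS
  have hSmem : ∀ a ∈ S, (∀ σ : K →+* ℂ, ‖σ a‖ ≤ X) ∧
      badK P₀ G a (X ^ θ) ≤ (1 - β) * D * θ * Real.log X + K' := by
    intro a ha
    rw [hS, Set.Finite.mem_toFinset] at ha
    exact ha
  set Y : ℝ := X ^ θ with hY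
  set N : ℕ := ⌊Y⌋₊ with hN
  have hN1 : 1 ≤ N := Nat.le_floor (by exact_mod_cast hXθ)
  have hNY : (N : ℝ) ≤ Y := Nat.floor_le (by linarith)
  have hYN : Y ≤ 2 * N := by
    have h1 := Nat.lt_floor_add_one Y
    have h2 : (1 : ℝ) ≤ N := by exact_mod_cast hN1
    linarith
  have hlogY : Real.log Y = θ * Real.log X := by rw [hY, Real.log_rpow hX0]
  have hN0 : (0 : ℝ) < N := by exact_mod_cast hN1
  have hlogN : Real.log N ≤ Real.log Y := Real.log_le_log hN0 hNY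
  have hlogN2 : Real.log Y - Real.log 2 ≤ Real.log N := by
    have h1 : Real.log Y ≤ Real.log (2 * N) := Real.log_le_log (by linarith) hYN
    rw [Real.log_mul (by norm_num) hN0.ne'] at h1
    linarith
  set PP : Finset ℕ := (Icc 1 N).filter (fun p => p.Prime ∧ P₁ < p) with hPP
  have hPPmem : ∀ p ∈ PP, p.Prime ∧ P₁ < p := fun p hp => (mem_filter.1 hp).2
  set Q : Finset (Σ _ : ℕ, Ideal (𝓞 K)) := PP.sigma fun p => po K p with hQ
  let w : (Σ _ : ℕ, Ideal (𝓞 K)) → ℝ := fun i => Real.log (absNorm i.2) / i.1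
  let l : (Σ _ : ℕ, Ideal (𝓞 K)) → ℝ := fun i => Real.log (absNorm i.2)
  have hlsum : ∀ p ∈ PP, ∑ P ∈ po K p, Real.log (absNorm P) = D * Real.log p := by
    intro p hp
    rw [hD]
    exact hN₁ p (hPPmem p hp).1 (lt_of_le_of_lt (le_max_right _ _) (hPPmem p hp).2)
  have hWeq : ∑ i ∈ Q, w i = D * ∑ p ∈ PP, Real.log p / p := by
    rw [hQ, Finset.sum_sigma, mul_sum]
    refine sum_congr rfl fun p hp => ?_
    simp only [w]
    rw [← Finset.sum_div, hlsum p hp, mul_div_assoc]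
  have hLeq : ∑ i ∈ Q, l i = D * ∑ p ∈ PP, Real.log p := by
    rw [hQ, Finset.sum_sigma, mul_sum]
    exact sum_congr rfl fun p hp => hlsum p hp
  have hmert := abs_le.1 (hC₀ N hN1)
  have hPPsub : PP ⊆ (Icc 1 N).filter Nat.Prime := by
    intro p hp
    rw [hPP, mem_filter] at hp
    exact mem_filter.2 ⟨hp.1, hp.2.1⟩
  have hsumPP : ∑ p ∈ PP, Real.log p / p ≤ Real.log Y + C₀ := by
    have h1 : ∑ p ∈ PP, Real.log p / p ≤ ∑ p ∈ (Icc 1 N).filter Nat.Prime, Real.log p / p :=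
      sum_le_sum_of_subset_of_nonneg hPPsub fun p _ _ =>
        div_nonneg (Real.log_natCast_nonneg p) (Nat.cast_nonneg p)
    linarith [hmert.2]
  have hsumPP2 : Real.log Y - Real.log 2 - C₀ - C₁ ≤ ∑ p ∈ PP, Real.log p / p := by
    have h1 : ∑ p ∈ (Icc 1 N).filter Nat.Prime, Real.log p / p ≤ ∑ p ∈ PP, Real.log p / p + C₁ := by
      rw [hC₁]
      have h2 : (Icc 1 N).filter Nat.Prime ⊆ PP ∪ (Icc 1 P₁).filter Nat.Prime := by
        intro p hp
        rw [mem_filter] at hp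
        rw [mem_union]
        rcases Nat.lt_or_ge P₁ p with h | h
        · left
          exact mem_filter.2 ⟨hp.1, hp.2, h⟩
        · right
          exact mem_filter.2 ⟨mem_Icc.2 ⟨(mem_Icc.1 hp.1).1, h⟩, hp.2⟩
      refine (sum_le_sum_of_subset_of_nonneg h2 fun p _ _ =>
        div_nonneg (Real.log_natCast_nonneg p) (Nat.cast_nonneg p)).trans ?_
      rw [← Finset.sum_union_inter]
      have : 0 ≤ ∑ i ∈ PP ∩ (Icc 1 P₁).filter Nat.Prime, Real.log (i : ℝ) / i :=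
        sum_nonneg fun p _ => div_nonneg (Real.log_natCast_nonneg p) (Nat.cast_nonneg p)
      linarith
    linarith [hmert.1]
  have hw0 : ∀ i ∈ Q, 0 ≤ w i := fun i _ => div_nonneg (log_norm_nonneg _) (Nat.cast_nonneg _)
  have hQmem : ∀ i ∈ Q, i.1 ∈ PP ∧ i.2 ∈ po K i.1 := by
    intro i hi
    rw [hQ, Finset.mem_sigma] at hi
    exact hi
  have hlX : 1 ≤ Real.log X := hL1c.trans hlarge
  have key := wsieve S Q w l (fun i a => Ideal.Quotient.mk i.2 a) (fun i a => G i.1 i.2 a)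
    (n := (n : ℝ)) (d := (d : ℝ)) (V := β * D * θ * Real.log X - C₂) (W := D * (θ * Real.log X + C₀))
    (L := D * (Real.log X + Real.log 2)) hn0 hd0 ?_ hw0 (fun i _ => log_norm_nonneg _) ?_ ?_ ?_ ?_ ?_
  · -- conclusion
    set Λ := Real.log X with hΛ
    have hf := hL₀ Λ (hL1a.trans hlarge)
    set W := D * (θ * Λ + C₀) with hW
    have hWpos : 0 < W := by
      rw [hW]
      have : 0 < θ * Λ := mul_pos hθ0 (by linarith)
      nlinarith
    have hfW : W ≤ n * (β * D * θ * Λ - C₂) ^ 2 - W * d * (D * (Λ + Real.log 2)) := by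
      have e : n * (β * D * θ * Λ - C₂) ^ 2 - W * d * (D * (Λ + Real.log 2)) - W =
          D ^ 2 * θ * (n * β ^ 2 * θ - d) * Λ ^ 2 +
            (-(2 * n * β * D * θ * C₂) - d * D ^ 2 * (θ * Real.log 2 + C₀) - D * θ) * Λ +
            (n * C₂ ^ 2 - d * D ^ 2 * C₀ * Real.log 2 - D * C₀) := by
        rw [hW]; ring
      linarith
    have hthe : ∑ p ∈ PP, Real.log (p : ℝ) ≤ Real.log 4 * Y := by
      have h1 := Chebyshev.theta_le_log4_mul_x (x := Y) (by linarith)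
      refine le_trans ?_ h1
      rw [Chebyshev.theta]
      refine sum_le_sum_of_subset_of_nonneg ?_ fun p _ _ => Real.log_natCast_nonneg p
      intro p hp
      rw [hPP, mem_filter, mem_Icc] at hp
      rw [mem_filter, mem_Ioc]
      exact ⟨⟨hp.2.1.pos, hp.1.2⟩, hp.2.1⟩
    have h1 : (S.card : ℝ) * W ≤ W * (d * (D * (Real.log 4 * Y))) := by
      calc (S.card : ℝ) * W ≤ S.card * (n * (β * D * θ * Λ - C₂) ^ 2 - W * d * (D * (Λ + Real.log 2))) :=
            mul_le_mul_of_nonneg_left hfW (Nat.cast_nonneg _)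
        _ ≤ W * d * ∑ i ∈ Q, l i := key
        _ = W * (d * (D * ∑ p ∈ PP, Real.log p)) := by rw [hLeq]; ring
        _ ≤ _ := by
            refine mul_le_mul_of_nonneg_left (mul_le_mul_of_nonneg_left
              (mul_le_mul_of_nonneg_left hthe (by linarith)) hd0) hWpos.le
    have h2 : (S.card : ℝ) ≤ d * (D * (Real.log 4 * Y)) := by
      rw [mul_comm W] at h1
      exact le_of_mul_le_mul_right h1 hWpos
    calc (S.card : ℝ) ≤ d * (D * (Real.log 4 * Y)) := h2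
      _ = (d * (D * Real.log 4)) * Y := by ring
      _ ≤ _ := mul_le_mul_of_nonneg_right (le_max_right _ _) (by linarith)
  · -- `0 ≤ V`
    have h1 : 0 < β * D * θ := by positivity
    have h2 := (div_le_iff₀ h1).1 (hL1b.trans hlarge)
    linarith
  · -- `W`
    rw [hWeq]
    refine mul_le_mul_of_nonneg_left ?_ (by linarith)
    rw [← hlogY]
    exact hsumPP
  · -- classes
    intro i hi
    obtain ⟨h1, h2⟩ := hQmem i hi
    obtain ⟨h3, h4⟩ := hPPmem _ h1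
    -- choose representatives
    let c : 𝓞 K → 𝓞 K ⧸ i.2 := fun a => Ideal.Quotient.mk i.2 a
    let T := (S.filter fun a => G i.1 i.2 a).image c
    have hrep : ∀ t ∈ T, ∃ a ∈ S.filter (fun a => G i.1 i.2 a), c a = t := fun t ht => mem_image.1 ht
    choose! f hf1 hf2 using hrep
    have hinj : Set.InjOn f T := by
      intro s hs t ht hst
      rw [← hf2 s hs, ← hf2 t ht, hst]
    have hc := hG i.1 h3 (lt_of_le_of_lt (le_max_left _ _) h4) i.2 h2 (T.image f) ?_ ?_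
    · rw [Finset.card_image_of_injOn hinj] at hc
      have hp0 : (0 : ℝ) < i.1 := by exact_mod_cast h3.pos
      have hcR : (T.card : ℝ) * n ≤ d * i.1 := by exact_mod_cast hc
      calc w i * ((T.card : ℝ) * n) ≤ w i * (d * i.1) :=
            mul_le_mul_of_nonneg_left hcR (hw0 i hi)
        _ = d * l i := by
            simp only [w, l]
            field_simp
    · intro a ha
      obtain ⟨t, ht, rfl⟩ := mem_image.1 ha
      exact (mem_filter.1 (hf1 t ht)).2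
    · intro a ha b hb hab
      obtain ⟨s, hs, rfl⟩ := mem_image.1 ha
      obtain ⟨t, ht, rfl⟩ := mem_image.1 hb
      have h5 : c (f s) = c (f t) := Ideal.Quotient.eq.2 hab
      rw [hf2 s hs, hf2 t ht] at h5
      rw [h5]
  · -- pairs
    intro a ha b hb hab
    have hne : a - b ≠ 0 := sub_ne_zero.2 hab
    set QQ := Q.filter (fun i => Ideal.Quotient.mk i.2 a = Ideal.Quotient.mk i.2 b) with hQQ
    have hinj : Set.InjOn (fun i : (Σ _ : ℕ, Ideal (𝓞 K)) => i.2) QQ := by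
      intro i hi j hj hij
      obtain ⟨h1, h2⟩ := hQmem i (mem_filter.1 hi).1
      obtain ⟨h1', h2'⟩ := hQmem j (mem_filter.1 hj).1
      have hij' : i.2 = j.2 := hij
      rw [← hij'] at h2'
      have h3 := po_inj (hPPmem _ h1).1 (hPPmem _ h1').1 h2 h2'
      exact Sigma.ext h3 (heq_of_eq hij')
    have h1 := prod_norm_le hne (QQ.image fun i => i.2) ?_ ?_
    · rw [Finset.prod_image hinj] at h1
      have h2 : ∑ i ∈ QQ, l i = Real.log ((∏ i ∈ QQ, absNorm i.2 : ℕ) : ℝ) := by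
        rw [Nat.cast_prod, Real.log_prod]
        intro i hi
        have h3 := po_ne_bot (hPPmem _ (hQmem i (mem_filter.1 hi).1).1).1 (hQmem i (mem_filter.1 hi).1).2
        have : absNorm i.2 ≠ 0 := by
          rw [Ne, Ideal.absNorm_eq_zero_iff]
          exact h3.2
        exact_mod_cast this
      rw [h2]
      have hpos : (0 : ℝ) < ((∏ i ∈ QQ, absNorm i.2 : ℕ) : ℝ) := by
        have : 0 < ∏ i ∈ QQ, absNorm i.2 := by
          refine Finset.prod_pos fun i hi => ?_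
          have h3 := po_ne_bot (hPPmem _ (hQmem i (mem_filter.1 hi).1).1).1 (hQmem i (mem_filter.1 hi).1).2
          exact Nat.pos_of_ne_zero (by rw [Ne, Ideal.absNorm_eq_zero_iff]; exact h3.2)
        exact_mod_cast this
      have h4 : ((∏ i ∈ QQ, absNorm i.2 : ℕ) : ℝ) ≤ (2 * X) ^ Module.finrank ℚ K := by
        refine le_trans (by exact_mod_cast h1) (norm_le (x := a - b) (B := 2 * X) fun σ => ?_)
        have h5 : σ ((a - b : 𝓞 K) : K) = σ a - σ b := by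
          rw [← map_sub]; rfl
        rw [h5]
        calc ‖σ a - σ b‖ ≤ ‖σ a‖ + ‖σ b‖ := norm_sub_le _ _
          _ ≤ X + X := add_le_add ((hSmem a ha).1 σ) ((hSmem b hb).1 σ)
          _ = 2 * X := by ring
      calc Real.log ((∏ i ∈ QQ, absNorm i.2 : ℕ) : ℝ) ≤ Real.log ((2 * X) ^ Module.finrank ℚ K) :=
            Real.log_le_log hpos h4
        _ = D * (Real.log X + Real.log 2) := by
            rw [Real.log_pow, Real.log_mul (by norm_num) hX0.ne', ← hD]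
            ring
    · intro P hP
      obtain ⟨i, hi, rfl⟩ := mem_image.1 hP
      exact po_ne_bot (hPPmem _ (hQmem i (mem_filter.1 hi).1).1).1 (hQmem i (mem_filter.1 hi).1).2
    · intro P hP
      obtain ⟨i, hi, rfl⟩ := mem_image.1 hP
      exact Ideal.Quotient.eq.1 (mem_filter.1 hi).2
  · -- `0 ≤ L`
    have : 0 ≤ Real.log X + Real.log 2 := by linarith
    exact mul_nonneg (by linarith) this
  · -- good
    intro a ha
    obtain ⟨-, hbad⟩ := hSmem a ha
    have h1 : ∑ i ∈ Q.filter (fun i => G i.1 i.2 a), w i + ∑ i ∈ Q.filter (fun i => ¬ G i.1 i.2 a), w i =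
        ∑ i ∈ Q, w i := Finset.sum_filter_add_sum_filter_not _ _ _
    have h2 : ∑ i ∈ Q.filter (fun i => ¬ G i.1 i.2 a), w i ≤ badK P₀ G a Y := by
      unfold badK
      have e1 : Q.filter (fun i => ¬ G i.1 i.2 a) =
          PP.sigma fun p => (po K p).filter fun P => ¬ G p P a := by
        ext i
        simp only [hQ, mem_filter, Finset.mem_sigma]
        tauto
      rw [e1, Finset.sum_sigma]
      refine sum_le_sum_of_subset_of_nonneg ?_ ?_
      · intro p hp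
        rw [hPP, mem_filter] at hp
        exact mem_filter.2 ⟨hp.1, hp.2.1, lt_of_le_of_lt (le_max_left _ _) hp.2.2⟩
      · intro p _ _
        exact sum_nonneg fun P _ => div_nonneg (log_norm_nonneg _) (Nat.cast_nonneg _)
    have h3 : D * (Real.log Y - Real.log 2 - C₀ - C₁) ≤ ∑ i ∈ Q, w i := by
      rw [hWeq]
      exact mul_le_mul_of_nonneg_left hsumPP2 (by linarith)
    have h4 : K' ≤ |K'| := le_abs_self _
    rw [hC₂]
    rw [hlogY] at h3
    nlinarith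
  
end Pool.Agent.V11263.PCu
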