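import Pool.Agent.V11263.PCu.Lin

set_option autoImplicit false

/-!
Differential fields of characteristic `p`: the degree over the constants, and the kernel of a
connection with vanishing `p`-curvature.
-/

namespace Pool.Agent.V11263.PCu

open Finset Module

variable {F : Type*} [Field F] (D : Derivation ℤ F F)

/-- The constants. -/
def KK : Subfield F where
  carrier := {f | D f = 0}
  mul_mem' := by
    intro a b ha hb
    have ha' : D a = 0 := ha
    have hb' : D b = 0 := hb
    show D (a * b) = 0
    rw [D.leibniz, ha', hb']; simp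
  one_mem' := D.map_one_eq_zero
  add_mem' := by
    intro a b ha hb
    have ha' : D a = 0 := ha
    have hb' : D b = 0 := hb
    show D (a + b) = 0
    rw [map_add, ha', hb', add_zero]
  zero_mem' := map_zero D
  neg_mem' := by
    intro a ha
    have ha' : D a = 0 := ha
    show D (-a) = 0
    rw [map_neg, ha', neg_zero]
  inv_mem' := by
    intro a ha
    have ha' : D a = 0 := ha
    show D a⁻¹ = 0
    rw [Derivation.leibniz_inv, ha']; simp

variable {D}

lemma D_mul_const {c : F} (hc : D c = 0) (f : F) : D (c * f) = c * D f := by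
  rw [D.leibniz, hc]; simp

variable {p : ℕ} [hp : Fact p.Prime] [CharP F p] {x : F} (hx : D x = 1)

include hx in
lemma D_pow (i : ℕ) : D (x ^ (i + 1)) = (i + 1 : ℕ) * x ^ i := by
  rw [D.leibniz_pow, hx]; simp

omit hp in
lemma cast_ne {i : ℕ} (hi : i + 1 < p) : ((i + 1 : ℕ) : F) ≠ 0 := by
  intro h
  rw [CharP.cast_eq_zero_iff F p] at h
  exact absurd (Nat.le_of_dvd (by omega) h) (by omega)

omit hp in
include hx in
/-- Expansion in the powers of `x`. -/
lemma expand (m : ℕ) (hm : m ≤ p) (f : F) (hf : (⇑D)^[m] f = 0) :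
    ∃ c : ℕ → F, (∀ i, D (c i) = 0) ∧ f = ∑ i ∈ range m, c i * x ^ i := by
  induction m generalizing f with
  | zero => exact ⟨fun _ => 0, fun _ => map_zero D, by simpa using hf⟩
  | succ m ih =>
    rw [Function.iterate_succ_apply] at hf
    obtain ⟨c, hc, hD⟩ := ih (by omega) (D f) hf
    -- an integral
    let h : F := ∑ i ∈ range m, (c i * ((i + 1 : ℕ) : F)⁻¹) * x ^ (i + 1)
    have hh : D h = D f := by
      rw [hD]
      simp only [h, map_sum]
      refine sum_congr rfl fun i hi => ?_
      have hi' : i + 1 < p := by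
        rw [mem_range] at hi; omega
      have hne := cast_ne (F := F) hi'
      have hci : D (c i * ((i + 1 : ℕ) : F)⁻¹) = 0 := by
        rw [D_mul_const (hc i), Derivation.leibniz_inv, Derivation.map_natCast]; simp
      rw [D_mul_const hci, D_pow hx]
      field_simp
    let c' : ℕ → F := fun i => if i = 0 then f - h else c (i - 1) * (i : F)⁻¹
    refine ⟨c', ?_, ?_⟩
    · intro i
      simp only [c']
      split_ifs with hi
      · rw [map_sub, hh, sub_self]
      · rw [D_mul_const (hc _), Derivation.leibniz_inv, Derivation.map_natCast]; simp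
    · rw [sum_range_succ']
      simp only [c', h, Nat.add_eq_zero_iff, one_ne_zero, and_false, if_false, if_true,
        Nat.add_sub_cancel, pow_zero, mul_one]
      ring

omit hp in
include hx in
/-- The powers of `x` are independent over the constants. -/
lemma indep (m : ℕ) (hm : m ≤ p) (c : ℕ → F) (hc : ∀ i, D (c i) = 0)
    (h : ∑ i ∈ range m, c i * x ^ i = 0) : ∀ i < m, c i = 0 := by
  induction m generalizing c with
  | zero => intro i hi; omega
  | succ m ih =>
    have h1 : ∑ i ∈ range m, (c (i + 1) * ((i + 1 : ℕ) : F)) * x ^ i = 0 := by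
      have h2 := congrArg D h
      rw [map_zero, map_sum, sum_range_succ'] at h2
      simp only [pow_zero, mul_one, hc, add_zero] at h2
      rw [← h2]
      refine sum_congr rfl fun i _ => ?_
      rw [D_mul_const (hc _), D_pow hx]
      ring
    have h3 := ih (by omega) (fun i => c (i + 1) * ((i + 1 : ℕ) : F)) (fun i => by
      rw [D_mul_const (hc _), Derivation.map_natCast, mul_zero]) h1
    have h4 : ∀ i < m, c (i + 1) = 0 := by
      intro i hi
      exact (mul_eq_zero.1 (h3 i hi)).resolve_right (cast_ne (F := F) (by omega))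
    intro i hi
    rcases Nat.eq_zero_or_pos i with h0 | h0
    · subst h0
      rw [sum_range_succ'] at h
      rw [sum_eq_zero] at h
      · simpa using h
      · intro i hi
        rw [h4 i (mem_range.1 hi), zero_mul]
    · obtain ⟨j, rfl⟩ : ∃ j, i = j + 1 := ⟨i - 1, by omega⟩
      exact h4 j (by omega)

include hx in
/-- The degree over the constants is `p`. -/
lemma finrank_KK (hD : ∀ f, (⇑D)^[p] f = 0) :
    Module.Finite (KK D) F ∧ finrank (KK D) F = p := by
  classical
  let b : Fin p → F := fun i => x ^ (i : ℕ)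
  have hli : LinearIndependent (KK D) b := by
    rw [Fintype.linearIndependent_iff]
    intro g hg i
    have h1 : ∑ j ∈ range p, (if h : j < p then ((g ⟨j, h⟩ : KK D) : F) else 0) * x ^ j = 0 := by
      rw [← Fin.sum_univ_eq_sum_range (fun j => (if h : j < p then ((g ⟨j, h⟩ : KK D) : F) else 0) * x ^ j)]
      refine Eq.trans (sum_congr rfl fun j _ => ?_) hg
      rw [dif_pos j.2]
      rfl
    have h2 := indep hx p le_rfl _ ?_ h1 i i.2
    · rw [dif_pos i.2] at h2
      exact Subtype.ext h2
    · intro j
      split_ifs with h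
      · exact (g ⟨j, h⟩).2
      · exact map_zero D
  have hsp : ⊤ ≤ Submodule.span (KK D) (Set.range b) := by
    intro f _
    obtain ⟨c, hc, hf⟩ := expand hx p le_rfl f (hD f)
    rw [hf]
    refine Submodule.sum_mem _ fun i hi => ?_
    have : c i * x ^ i = (⟨c i, hc i⟩ : KK D) • b ⟨i, mem_range.1 hi⟩ := rfl
    rw [this]
    exact Submodule.smul_mem _ _ (Submodule.subset_span ⟨_, rfl⟩)
  let B := Basis.mk hli hsp
  refine ⟨Module.Finite.of_basis B, ?_⟩
  rw [finrank_eq_card_basis B, Fintype.card_fin]

/-! ### connections -/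

variable (D) in
/-- The connection `v ↦ v' - A v`. -/
def nab {r : ℕ} (A : Matrix (Fin r) (Fin r) F) : End (KK D) (Fin r → F) where
  toFun v := fun i => D (v i) - A.mulVec v i
  map_add' v w := by
    funext i
    simp only [Pi.add_apply, map_add, Matrix.mulVec_add]
    ring
  map_smul' c v := by
    funext i
    have hc : D (c : F) = 0 := c.2
    have h1 : (c • v) i = (c : F) * v i := rfl
    have h2 : A.mulVec (c • v) i = (c : F) * A.mulVec v i := by
      have : (c • v) = (c : F) • v := rfl
      rw [this, Matrix.mulVec_smul]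
      rfl
    rw [h1, h2, D_mul_const hc]
    show _ = (c : F) * (D (v i) - A.mulVec v i)
    ring

lemma nab_apply {r : ℕ} (A : Matrix (Fin r) (Fin r) F) (v : Fin r → F) (i : Fin r) :
    nab D A v i = D (v i) - A.mulVec v i := rfl

section ker

variable {K V : Type*} [Field K] [AddCommGroup V] [Module K V] [FiniteDimensional K V]

lemma finrank_ker_comp (f g : End K V) :
    finrank K (LinearMap.ker (f ∘ₗ g)) ≤ finrank K (LinearMap.ker f) + finrank K (LinearMap.ker g) := by
  let h : LinearMap.ker (f ∘ₗ g) →ₗ[K] LinearMap.ker f :=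
    LinearMap.codRestrict _ (g ∘ₗ (LinearMap.ker (f ∘ₗ g)).subtype) (fun v => v.2)
  have h1 := LinearMap.finrank_range_add_finrank_ker h
  have h2 : finrank K (LinearMap.range h) ≤ finrank K (LinearMap.ker f) := Submodule.finrank_le _
  have h3 : finrank K (LinearMap.ker h) ≤ finrank K (LinearMap.ker g) := by
    let e : LinearMap.ker h →ₗ[K] LinearMap.ker g :=
      LinearMap.codRestrict _ ((LinearMap.ker (f ∘ₗ g)).subtype ∘ₗ (LinearMap.ker h).subtype) (fun v => by
        have hv : h (v : LinearMap.ker (f ∘ₗ g)) = 0 := v.2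
        exact congrArg Subtype.val hv)
    refine LinearMap.finrank_le_finrank_of_injective (f := e) ?_
    intro a b hab
    have h4 : (((a : LinearMap.ker (f ∘ₗ g)) : V)) = ((b : LinearMap.ker (f ∘ₗ g)) : V) :=
      congrArg (fun z : LinearMap.ker g => (z : V)) hab
    exact Subtype.ext (Subtype.ext h4)
  omega

lemma finrank_ker_pow (f : End K V) (n : ℕ) :
    finrank K (LinearMap.ker (f ^ n)) ≤ n * finrank K (LinearMap.ker f) := by
  induction n with
  | zero =>
    rw [pow_zero]
    have : LinearMap.ker (1 : End K V) = ⊥ := LinearMap.ker_eq_bot.2 (fun a b h => h)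
    rw [this, finrank_bot]
    omega
  | succ n ih =>
    rw [pow_succ]
    have := finrank_ker_comp (f ^ n) f
    rw [Module.End.mul_eq_comp]
    rw [Nat.add_mul, one_mul]
    omega

end ker

include hx in
/-- A connection of rank `r` with vanishing `p`-curvature has `r` independent horizontal vectors. -/
lemma full_of_pcurv (hD : ∀ f, (⇑D)^[p] f = 0) {r : ℕ} (A : Matrix (Fin r) (Fin r) F)
    (hA : ∀ v, (⇑(nab D A))^[p] v = 0) : r ≤ finrank (KK D) (LinearMap.ker (nab D A)) := by
  obtain ⟨h1, h2⟩ := finrank_KK hx hD
  have h3 : (nab D A) ^ p = 0 := by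
    refine LinearMap.ext fun v => ?_
    rw [Module.End.pow_apply, hA v]
    rfl
  have h4 := finrank_ker_pow (nab D A) p
  rw [h3, LinearMap.ker_zero, finrank_top, finrank_pi_fintype, sum_const, card_univ,
    Fintype.card_fin, smul_eq_mul, h2] at h4
  have hp0 : 0 < p := hp.out.pos
  nlinarith

end Pool.Agent.V11263.PCu
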