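import Pool.Agent.Y218.Adc
import Pool.Agent.V11263.PCu.KS

set_option autoImplicit false

/-!
The number of the positions of one branch point for which a hyperelliptic curve is not ordinary.
-/

namespace Pool.Agent.V11263.PCu

open Polynomial

open Pool.Agent.Results.MP_2ca583_ag.HasseWittClassification (hasseWitt)
open Pool.Agent.Y218.Adc (det_map)
open Pool.Agent.Y218.HW (exists_ordinary)

section deg

variable {R : Type*} [CommRing R]

/-- all coefficients have degree at most `a` -/
def DT (a : ℕ) (q : R[X][X]) : Prop := ∀ k, (q.coeff k).natDegree ≤ a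

lemma DT.mul {a b : ℕ} {q r : R[X][X]} (hq : DT a q) (hr : DT b r) : DT (a + b) (q * r) := by
  intro k
  rw [coeff_mul]
  refine natDegree_sum_le_of_forall_le _ _ fun x _ => ?_
  exact natDegree_mul_le.trans (Nat.add_le_add (hq _) (hr _))

lemma DT.pow {a : ℕ} {q : R[X][X]} (hq : DT a q) (n : ℕ) : DT (n * a) (q ^ n) := by
  induction n with
  | zero =>
    intro k
    rw [pow_zero, coeff_one]
    split_ifs <;> simp
  | succ n ih =>
    rw [pow_succ]
    have := ih.mul hq
    rwa [Nat.succ_mul]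

lemma DT_X_pow (n : ℕ) : DT 0 (X ^ n : R[X][X]) := by
  intro k
  rw [coeff_X_pow]
  split_ifs <;> simp

/-- the family with the branch point `T` -/
noncomputable def fm {n : ℕ} (l : Fin n → R) : R[X][X] := (X - C X) * ∏ j, (X - C (C (l j)))

lemma DT_fm {n : ℕ} (l : Fin n → R) : DT 1 (fm l) := by
  have h1 : DT 1 (X - C X : R[X][X]) := by
    intro k
    rw [coeff_sub, coeff_X, coeff_C]
    refine (natDegree_sub_le _ _).trans (max_le ?_ ?_)
    · split_ifs <;> simp
    · split_ifs
      · exact natDegree_X_le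
      · simp
  have h2 : DT 0 (∏ j, (X - C (C (l j))) : R[X][X]) := by
    have e : (∏ j, (X - C (C (l j))) : R[X][X]) = (∏ j, (X - C (l j))).map C := by
      simp [Polynomial.map_prod]
    intro k
    rw [e, coeff_map, natDegree_C]
  exact h1.mul h2

lemma natDegree_det_le' {g m : ℕ} (M : Matrix (Fin g) (Fin g) R[X]) (h : ∀ i j, (M i j).natDegree ≤ m) :
    M.det.natDegree ≤ g * m := by
  rw [Matrix.det_apply]
  refine natDegree_sum_le_of_forall_le _ _ fun σ _ => ?_
  have h1 : (∏ i, M (σ i) i).natDegree ≤ g * m := by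
    refine (natDegree_prod_le _ _).trans ?_
    refine (Finset.sum_le_card_nsmul _ _ m fun i _ => h _ _).trans ?_
    simp
  rcases Int.units_eq_one_or (Equiv.Perm.sign σ) with hs | hs
  · rw [hs, one_smul]; exact h1
  · rw [hs, Units.neg_smul, one_smul, natDegree_neg]; exact h1

lemma det_deg {p g n : ℕ} (l : Fin n → R) : (hasseWitt p g (fm l)).det.natDegree ≤ g * ((p - 1) / 2) := by
  refine natDegree_det_le' _ fun i j => ?_
  have h1 := (DT_X_pow (R := R) ((j : ℕ) + 1)).mul ((DT_fm l).pow ((p - 1) / 2))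
  have h2 := h1 (p * ((i : ℕ) + 1))
  rw [Nat.zero_add, Nat.mul_one] at h2
  exact h2

end deg

lemma fm_eval {R S : Type*} [CommRing R] [CommRing S] {n : ℕ} (l : Fin n → R) (φ : R →+* S) (t : S) :
    (fm l).map (eval₂RingHom φ t) = (X - C t) * ∏ j, (X - C (φ (l j))) := by
  unfold fm
  simp [Polynomial.map_mul, Polynomial.map_prod]

lemma det_ne {k : Type*} [Field k] (p : ℕ) [Fact p.Prime] [CharP k p] (hp2 : 2 < p) (g : ℕ) (hg : 1 ≤ g)
    (hgp : 2 * g ≤ p + 1) (l : Fin (2 * g) → k) (hl : Function.Injective l) :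
    (hasseWitt p g (fm l)).det ≠ 0 := by
  classical
  intro h0
  let K := AlgebraicClosure k
  have hcK : CharP K p := charP_of_injective_algebraMap (algebraMap k K).injective p
  have hl' : Function.Injective fun j => algebraMap k K (l j) := (algebraMap k K).injective.comp hl
  have hcard : (Finset.univ.image fun j => algebraMap k K (l j)).card + 1 = 2 * g + 1 := by
    rw [Finset.card_image_of_injective _ hl']; simp
  obtain ⟨μ, -, -, h3⟩ := exists_ordinary (k := K) p hp2 g 1 hg
    (Finset.univ.image fun j => algebraMap k K (l j)) hcard (by omega)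
  apply h3
  have h1 : (∏ i, (X - C (μ i))) * ∏ x ∈ (Finset.univ.image fun j => algebraMap k K (l j)), (X - C x) =
      (fm l).map (eval₂RingHom (algebraMap k K) (μ 0)) := by
    rw [fm_eval]
    simp [Finset.prod_image (fun a _ b _ h => hl' h)]
  rw [h1, ← det_map, h0, map_zero]

theorem hw_count {k : Type*} [Field k] (p : ℕ) [Fact p.Prime] [CharP k p] (hp2 : 2 < p) {ι : Type*} [Fintype ι]
    (g : ι → ℕ) (hg : ∀ i, 1 ≤ g i) (hgp : ∀ i, 2 * g i ≤ p + 1) (l : ∀ i, Fin (2 * g i) → k)
    (hl : ∀ i, Function.Injective (l i)) (T : Finset k)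
    (hT : ∀ t ∈ T, ∃ i, (∃ j, t = l i j) ∨
      (hasseWitt p (g i) ((X - C t) * ∏ j, (X - C (l i j)))).det = 0) :
    T.card ≤ (∑ i, g i) * ((p - 1) / 2) + 2 * ∑ i, g i := by
  classical
  set Δ : k[X] := ∏ i, ((hasseWitt p (g i) (fm (l i))).det * ∏ j, (X - C (l i j))) with hΔ
  have hΔ0 : Δ ≠ 0 := by
    rw [hΔ, Finset.prod_ne_zero_iff]
    intro i _
    refine mul_ne_zero (det_ne p hp2 (g i) (hg i) (hgp i) (l i) (hl i)) ?_
    rw [Finset.prod_ne_zero_iff]
    exact fun j _ => X_sub_C_ne_zero _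
  have hdeg : Δ.natDegree ≤ (∑ i, g i) * ((p - 1) / 2) + 2 * ∑ i, g i := by
    refine (natDegree_prod_le _ _).trans ?_
    rw [Finset.sum_mul, Finset.mul_sum, ← Finset.sum_add_distrib]
    refine Finset.sum_le_sum fun i _ => ?_
    refine natDegree_mul_le.trans (Nat.add_le_add (det_deg _) ?_)
    rw [natDegree_prod_of_monic _ _ fun j _ => monic_X_sub_C _]
    simp
  have hsub : T.val ⊆ Δ.roots := by
    intro t ht
    obtain ⟨i, hi⟩ := hT t ht
    rw [mem_roots hΔ0, IsRoot.def, hΔ, eval_prod]
    refine Finset.prod_eq_zero (Finset.mem_univ i) ?_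
    rw [eval_mul]
    rcases hi with ⟨j, hj⟩ | h
    · rw [eval_prod, Finset.prod_eq_zero (Finset.mem_univ j), mul_zero]
      rw [hj]; simp
    · have h2 : eval t (hasseWitt p (g i) (fm (l i))).det = 0 := by
        have h3 := det_map p (g i) (eval₂RingHom (RingHom.id k) t) (fm (l i))
        rw [fm_eval] at h3
        simp only [RingHom.id_apply] at h3
        rw [h, coe_eval₂RingHom, eval₂_id] at h3
        exact h3
      rw [h2, zero_mul]
  calc T.card = Multiset.card T.val := rfl
    _ ≤ Multiset.card Δ.roots := Multiset.card_le_card (Multiset.le_iff_subset T.nodup |>.2 hsub)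
    _ ≤ Δ.natDegree := card_roots' Δ
    _ ≤ _ := hdeg

end Pool.Agent.V11263.PCu
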