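import Mathlib

set_option autoImplicit false

/-!
Polynomial pencils of linear maps: the number of parameters with a large kernel.
-/

namespace Pool.Agent.V11263.PCu

open Finset Module

variable {K V : Type*} [Field K] [AddCommGroup V] [Module K V]

/-- The companion map. -/
def cmp {d : ℕ} (T : Fin d → End K V) : End K (Fin d → V) :=
  LinearMap.pi fun j => if h : (j : ℕ) + 1 < d then LinearMap.proj ⟨j + 1, h⟩ else
    ∑ k, T k ∘ₗ LinearMap.proj k

lemma cmp_apply {d : ℕ} (T : Fin d → End K V) (v : Fin d → V) (j : Fin d) :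
    cmp T v j = if h : (j : ℕ) + 1 < d then v ⟨j + 1, h⟩ else ∑ k, T k (v k) := by
  unfold cmp
  rw [LinearMap.pi_apply]
  split_ifs with h
  · rfl
  · simp

/-- Vectors `v` in `W` with `s^d v = ∑ s^k T_k v`, for many `s`. -/
theorem count_T [FiniteDimensional K V] {d m : ℕ} (hd : 1 ≤ d) (T : Fin d → End K V) (W : Submodule K V)
    {ι : Type*} (S : Finset ι) (κ : ι → K) (hκ : Set.InjOn κ S) (y : ι → Fin m → V)
    (hW : ∀ q ∈ S, ∀ j, y q j ∈ W)
    (hsol : ∀ q ∈ S, ∀ j, κ q ^ d • y q j = ∑ k : Fin d, κ q ^ (k : ℕ) • T k (y q j))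
    (hind : ∀ q ∈ S, LinearIndependent K (y q)) : S.card * m ≤ d * finrank K W := by
  classical
  let Φ := cmp T
  let v : (q : S) → Fin m → (Fin d → V) := fun q j k => κ q ^ (k : ℕ) • y q j
  have hmem : ∀ (q : S) (j : Fin m), v q j ∈ Φ.eigenspace (κ q) := by
    intro q j
    rw [Module.End.mem_eigenspace_iff]
    funext k
    show cmp T (v q j) k = κ q • v q j k
    rw [cmp_apply]
    split_ifs with h
    · simp only [v]
      rw [smul_smul, pow_succ']
    · have hk : (k : ℕ) + 1 = d := by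
        have := k.2
        omega
      simp only [v, map_smul]
      rw [← hsol q q.2 j, smul_smul, ← pow_succ', hk]
  have hli : ∀ q : S, LinearIndependent K (v q) := by
    intro q
    have h0 : 0 < d := hd
    refine LinearIndependent.of_comp (LinearMap.proj (⟨0, h0⟩ : Fin d)) ?_
    have : (⇑(LinearMap.proj (R := K) (φ := fun _ : Fin d => V) (⟨0, h0⟩ : Fin d)) ∘ v q) =
        y q := by
      funext j
      simp [v]
    rw [this]
    exact hind q q.2
  have hspan : ∀ q : S, Submodule.span K (Set.range (v q)) ≤ Φ.eigenspace (κ q) := by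
    intro q
    rw [Submodule.span_le]
    rintro _ ⟨j, rfl⟩
    exact hmem q j
  have hinj : Function.Injective (fun q : S => κ q) := by
    intro a b hab
    exact Subtype.ext (hκ a.2 b.2 hab)
  have hind2 : iSupIndep (fun q : S => Φ.eigenspace (κ q)) :=
    (Module.End.eigenspaces_iSupIndep Φ).comp hinj
  have hLI : LinearIndependent K (fun ji : Σ _ : S, Fin m => v ji.1 ji.2) := by
    refine linearIndependent_iUnion_finite hli fun q t _ hq => ?_
    refine (hind2.disjoint_biSup (x := q) (y := t) hq).mono (hspan q) ?_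
    exact iSup₂_mono fun i _ => hspan i
  -- the same family in `Fin d → W`
  let w : (Σ _ : S, Fin m) → (Fin d → W) := fun ji k =>
    ⟨κ ji.1 ^ (k : ℕ) • y ji.1 ji.2, W.smul_mem _ (hW _ ji.1.2 _)⟩
  let E : (Fin d → W) →ₗ[K] (Fin d → V) := LinearMap.pi fun k => W.subtype ∘ₗ LinearMap.proj k
  have hLI2 : LinearIndependent K w := by
    refine LinearIndependent.of_comp E ?_
    have : (⇑E ∘ w) = fun ji : Σ _ : S, Fin m => v ji.1 ji.2 := by
      funext ji k
      rfl
    rw [this]
    exact hLI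
  have hcard := hLI2.fintype_card_le_finrank
  rw [Fintype.card_sigma, Finset.sum_const, Finset.card_univ, Fintype.card_fin,
    Fintype.card_coe, smul_eq_mul, Module.finrank_pi_fintype, Finset.sum_const, Finset.card_univ,
    Fintype.card_fin, smul_eq_mul] at hcard
  exact hcard

/-- The value of a pencil. -/
def pen {d : ℕ} (P : Fin (d + 1) → End K V) (c : K) : End K V := ∑ k : Fin (d + 1), c ^ (k : ℕ) • P k

lemma pen_apply {d : ℕ} (P : Fin (d + 1) → End K V) (c : K) (v : V) :
    pen P c v = ∑ k : Fin (d + 1), c ^ (k : ℕ) • P k v := by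
  simp [pen]

/-- The count when the member at `0` is the regular one. -/
theorem count_zero [FiniteDimensional K V] {d G N : ℕ} (hd : 1 ≤ d) (P : Fin (d + 1) → End K V)
    (W : Submodule K V) (hW : ∀ k : Fin (d + 1), k ≠ 0 → ∀ v, P k v ∈ W)
    (h0 : finrank K (LinearMap.ker (P 0)) ≤ G) (S : Finset K) (hS0 : (0 : K) ∉ S)
    (hS : ∀ c ∈ S, N ≤ finrank K (LinearMap.ker (pen P c))) :
    S.card * (N - G) ≤ d * finrank K W := by
  classical
  obtain ⟨C, hC⟩ := (LinearMap.ker (P 0)).exists_isCompl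
  -- a left inverse on `C`
  have hinj : LinearMap.ker ((P 0) ∘ₗ C.subtype) = ⊥ := by
    rw [LinearMap.ker_eq_bot']
    intro c hc
    have h1 : (c : V) ∈ LinearMap.ker (P 0) := hc
    have h2 : (c : V) ∈ LinearMap.ker (P 0) ⊓ C := ⟨h1, c.2⟩
    rw [hC.inf_eq_bot] at h2
    exact Subtype.ext h2
  obtain ⟨g, hg⟩ := ((P 0) ∘ₗ C.subtype).exists_leftInverse_of_injective hinj
  let E : End K V := C.subtype ∘ₗ g
  have hE : ∀ v ∈ C, E (P 0 v) = v := by
    intro v hv
    have h := LinearMap.congr_fun hg ⟨v, hv⟩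
    have h' : g (P 0 v) = ⟨v, hv⟩ := h
    show ((g (P 0 v) : C) : V) = v
    rw [h']
  let T : Fin d → End K V := fun i => -(E ∘ₗ P (Fin.rev i).succ)
  have hex : ∀ c ∈ S, ∃ y : Fin (N - G) → V, LinearIndependent K y ∧
      ∀ j, y j ∈ LinearMap.ker (pen P c) ⊓ C := by
    intro c hc
    have h1 : N - G ≤ finrank K (LinearMap.ker (pen P c) ⊓ C : Submodule K V) := by
      have h2 := Submodule.finrank_sup_add_finrank_inf_eq (LinearMap.ker (pen P c)) C
      have h3 := Submodule.finrank_le (LinearMap.ker (pen P c) ⊔ C)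
      have h4 := Submodule.finrank_add_eq_of_isCompl hC
      have h5 := hS c hc
      omega
    obtain ⟨f, hf⟩ := exists_linearIndependent_of_le_finrank h1
    refine ⟨fun j => (f j : V), ?_, fun j => (f j).2⟩
    exact hf.map' (Submodule.subtype _) (Submodule.ker_subtype _)
  choose! y hy1 hy2 using hex
  have hWE : ∀ c ∈ S, ∀ j, y c j ∈ W.map E ∧
      (c⁻¹) ^ d • y c j = ∑ k : Fin d, (c⁻¹) ^ (k : ℕ) • T k (y c j) := by
    intro c hc j
    have hc0 : c ≠ 0 := fun h => hS0 (h ▸ hc)
    obtain ⟨h1, h2⟩ := hy2 c hc j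
    have h3 : pen P c (y c j) = 0 := h1
    rw [pen_apply, Fin.sum_univ_succ] at h3
    simp only [Fin.val_zero, pow_zero, one_smul, Fin.val_succ] at h3
    have h4 : y c j = -∑ i : Fin d, c ^ ((i : ℕ) + 1) • E (P i.succ (y c j)) := by
      have h5 := congrArg E h3
      rw [map_add, hE _ h2, map_zero, map_sum] at h5
      simp only [map_smul] at h5
      exact eq_neg_of_add_eq_zero_left h5
    constructor
    · rw [h4]
      refine Submodule.neg_mem _ (Submodule.sum_mem _ fun i _ => Submodule.smul_mem _ _ ?_)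
      exact Submodule.mem_map_of_mem (hW _ (Fin.succ_ne_zero i) _)
    · conv_lhs => rw [h4]
      rw [smul_neg, Finset.smul_sum, ← Finset.sum_neg_distrib]
      rw [← Equiv.sum_comp Fin.revPerm]
      refine Finset.sum_congr rfl fun i _ => ?_
      simp only [T, Fin.revPerm_apply, LinearMap.neg_apply, LinearMap.comp_apply, smul_neg, neg_inj]
      rw [smul_smul]
      congr 1
      have hi : (i : ℕ) + ((Fin.rev i : Fin d) : ℕ) + 1 = d := by
        rw [Fin.val_rev]; have := i.2; omega
      have : c⁻¹ ^ d = c⁻¹ ^ (i : ℕ) * c⁻¹ ^ (((Fin.rev i : Fin d) : ℕ) + 1) := by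
        rw [← pow_add]; congr 1; omega
      rw [this, mul_assoc, ← mul_pow, inv_mul_cancel₀ hc0, one_pow, mul_one]
  have h := count_T hd T (W.map E) S (fun c => c⁻¹) (fun a _ b _ hab => inv_injective hab) y
    (fun c hc j => (hWE c hc j).1) (fun c hc j => (hWE c hc j).2) hy1
  refine h.trans (Nat.mul_le_mul_left d ?_)
  exact Submodule.finrank_map_le E W

/-- The pencil with shifted parameter. -/
def shf {d : ℕ} (P : Fin (d + 1) → End K V) (c₀ : K) (j : Fin (d + 1)) : End K V :=
  ∑ k : Fin (d + 1), ((Nat.choose k j : K) * c₀ ^ ((k : ℕ) - j)) • P k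

lemma pen_shf {d : ℕ} (P : Fin (d + 1) → End K V) (c₀ t : K) :
    pen (shf P c₀) t = pen P (t + c₀) := by
  unfold pen shf
  simp only [Finset.smul_sum, smul_smul]
  rw [Finset.sum_comm]
  refine Finset.sum_congr rfl fun k _ => ?_
  rw [← Finset.sum_smul]
  congr 1
  rw [add_pow]
  have h1 : ∑ j : Fin (d + 1), t ^ (j : ℕ) * ((Nat.choose k j : K) * c₀ ^ ((k : ℕ) - j)) =
      ∑ j ∈ Finset.range (d + 1), t ^ j * ((Nat.choose k j : K) * c₀ ^ ((k : ℕ) - j)) :=
    Fin.sum_univ_eq_sum_range (fun j => t ^ j * ((Nat.choose k j : K) * c₀ ^ ((k : ℕ) - j))) (d + 1)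
  rw [h1]
  have hk : (k : ℕ) + 1 ≤ d + 1 := k.2
  rw [← Finset.sum_subset (Finset.range_subset_range.2 hk)]
  · refine Finset.sum_congr rfl fun j _ => ?_
    ring
  · intro j _ hj
    rw [Finset.mem_range, not_lt] at hj
    rw [Nat.choose_eq_zero_of_lt (by omega)]
    simp

/-- **Polynomial pencils.** -/
theorem count [FiniteDimensional K V] {d G N : ℕ} (hd : 1 ≤ d) (hGN : G < N)
    (P : Fin (d + 1) → End K V)
    (W : Submodule K V) (hW : ∀ k : Fin (d + 1), k ≠ 0 → ∀ v, P k v ∈ W) (c₀ : K)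
    (h0 : finrank K (LinearMap.ker (pen P c₀)) ≤ G) (S : Finset K)
    (hS : ∀ c ∈ S, N ≤ finrank K (LinearMap.ker (pen P c))) :
    S.card * (N - G) ≤ d * finrank K W := by
  classical
  have hz : shf P c₀ 0 = pen P c₀ := by
    unfold shf pen
    refine Finset.sum_congr rfl fun k _ => ?_
    simp
  have h := count_zero (G := G) (N := N) hd (shf P c₀) W ?_ (by rw [hz]; exact h0)
    (S.image fun c => c - c₀) ?_ ?_
  · rwa [Finset.card_image_of_injective _ (sub_left_injective)] at h
  · intro k hk v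
    have hk0 : 0 < (k : ℕ) := Fin.pos_iff_ne_zero.2 hk
    unfold shf
    rw [LinearMap.sum_apply]
    refine Submodule.sum_mem _ fun i _ => ?_
    rw [LinearMap.smul_apply]
    rcases eq_or_ne i 0 with hi | hi
    · subst hi
      rw [Fin.val_zero, Nat.choose_eq_zero_of_lt hk0]
      simp
    · exact Submodule.smul_mem _ _ (hW i hi v)
  · intro h
    obtain ⟨c, hc, hc'⟩ := Finset.mem_image.1 h
    have : c = c₀ := sub_eq_zero.1 hc'
    subst this
    have := hS c hc
    omega
  · intro t ht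
    obtain ⟨c, hc, rfl⟩ := Finset.mem_image.1 ht
    rw [pen_shf, sub_add_cancel]
    exact hS c hc

end Pool.Agent.V11263.PCu
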