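import Pool.Agent.V11263.PCu.Dif

set_option autoImplicit false

/-!
The number of parameters with vanishing `p`-curvature in a family of connections.
-/

namespace Pool.Agent.V11263.PCu

open Finset Module

variable {F : Type*} [Field F] {D : Derivation ℤ F F}

lemma finrank_le_of_dep {K V : Type*} [Field K] [AddCommGroup V] [Module K V] [FiniteDimensional K V]
    (M : Submodule K V) (g : ℕ)
    (h : ∀ v : Fin (g + 1) → V, (∀ j, v j ∈ M) → ¬ LinearIndependent K v) : finrank K M ≤ g := by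
  by_contra hcon
  obtain ⟨f, hf⟩ := exists_linearIndependent_of_le_finrank (R := K) (M := M) (n := g + 1) (by omega)
  exact h (fun j => (f j : V)) (fun j => (f j).2) (hf.map' M.subtype (Submodule.ker_subtype _))

/-- The matrix with the parameter `c`. -/
def mat {r m d : ℕ} (A : Matrix (Fin r) (Fin r) F) (U : Matrix (Fin r) (Fin m) F)
    (W : Fin d → Matrix (Fin m) (Fin r) F) (c : F) : Matrix (Fin r) (Fin r) F :=
  A + ∑ k : Fin d, c ^ ((k : ℕ) + 1) • (U * W k)

variable (D) in
/-- The maps of the pencil. -/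
def PP {r m d : ℕ} (A : Matrix (Fin r) (Fin r) F) (U : Matrix (Fin r) (Fin m) F)
    (W : Fin d → Matrix (Fin m) (Fin r) F) : Fin (d + 1) → End (KK D) (Fin r → F) :=
  Fin.cons (nab D A) fun k => -((U * W k).mulVecLin.restrictScalars (KK D))

lemma pen_PP {r m d : ℕ} (A : Matrix (Fin r) (Fin r) F) (U : Matrix (Fin r) (Fin m) F)
    (W : Fin d → Matrix (Fin m) (Fin r) F) (c : KK D) :
    pen (PP D A U W) c = nab D (mat A U W (c : F)) := by
  refine LinearMap.ext fun v => ?_
  rw [pen_apply, Fin.sum_univ_succ]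
  funext i
  simp only [PP, Fin.val_zero, pow_zero, one_smul, Fin.cons_zero, Fin.cons_succ, Pi.add_apply,
    Finset.sum_apply, nab_apply, mat, Matrix.add_mulVec, Fin.val_succ]
  have h1 : (∑ k : Fin d, (c : F) ^ ((k : ℕ) + 1) • (U * W k)).mulVec v i =
      ∑ k : Fin d, (c : F) ^ ((k : ℕ) + 1) * (U * W k).mulVec v i := by
    rw [Matrix.sum_mulVec, Finset.sum_apply]
    refine sum_congr rfl fun k _ => ?_
    rw [Matrix.smul_mulVec, Pi.smul_apply, smul_eq_mul]
  rw [h1]
  have h2 : ∀ k : Fin d, (c ^ ((k : ℕ) + 1) •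
      (-((U * W k).mulVecLin.restrictScalars (KK D))) v) i =
      -((c : F) ^ ((k : ℕ) + 1) * (U * W k).mulVec v i) := by
    intro k
    have h3 : (c ^ ((k : ℕ) + 1) • (-((U * W k).mulVecLin.restrictScalars (KK D))) v) i =
      ((c ^ ((k : ℕ) + 1) : KK D) : F) * (-(U * W k).mulVec v i) := rfl
    rw [h3]
    push_cast
    ring
  simp only [h2, sum_neg_distrib]
  ring

/-- **At most `d m p / (e - g)` values of the parameter give `e` independent horizontal vectors.** -/
theorem loc' {p : ℕ} [hp : Fact p.Prime] [CharP F p] {x : F} (hx : D x = 1)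
    (hD : ∀ f, (⇑D)^[p] f = 0) {r m d g e : ℕ} (hd : 1 ≤ d) (hg : g < e)
    (A : Matrix (Fin r) (Fin r) F) (U : Matrix (Fin r) (Fin m) F)
    (W : Fin d → Matrix (Fin m) (Fin r) F) (c₀ : F) (hc₀ : D c₀ = 0)
    (h₀ : ∀ v : Fin (g + 1) → Fin r → F,
      (∀ j i, D (v j i) = (mat A U W c₀).mulVec (v j) i) →
      ∃ a : Fin (g + 1) → F, (∀ j, D (a j) = 0) ∧ a ≠ 0 ∧ ∀ i, ∑ j, a j * v j i = 0)
    (T : Finset (KK D)) (hT : ∀ c ∈ T, ∃ v : Fin e → Fin r → F,
      (∀ j, nab D (mat A U W (c : F)) (v j) = 0) ∧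
      ∀ a : Fin e → F, (∀ j, D (a j) = 0) → (∀ i, ∑ j, a j * v j i = 0) → ∀ j, a j = 0) :
    T.card * (e - g) ≤ d * m * p := by
  obtain ⟨hfin, hfr⟩ := finrank_KK (p := p) hx hD
  let Wd : Submodule (KK D) (Fin r → F) :=
    LinearMap.range (U.mulVecLin.restrictScalars (KK D))
  have hWd : finrank (KK D) Wd ≤ m * p := by
    have h1 := LinearMap.finrank_range_le (U.mulVecLin.restrictScalars (KK D))
    rw [finrank_pi_fintype, sum_const, card_univ, Fintype.card_fin, smul_eq_mul, hfr] at h1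
    exact h1
  have hc := count (K := KK D) (V := Fin r → F) (G := g) (N := e) hd hg (PP D A U W) Wd ?_
    ⟨c₀, hc₀⟩ ?_ T ?_
  · calc T.card * (e - g) ≤ d * finrank (KK D) Wd := hc
      _ ≤ d * (m * p) := Nat.mul_le_mul_left d hWd
      _ = d * m * p := by ring
  · intro k hk v
    obtain ⟨j, rfl⟩ := Fin.exists_succ_eq.2 hk
    simp only [PP, Fin.cons_succ]
    rw [LinearMap.neg_apply]
    refine Submodule.neg_mem _ ⟨(W j).mulVec v, ?_⟩
    show U.mulVec ((W j).mulVec v) = (U * W j).mulVec v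
    rw [Matrix.mulVec_mulVec]
  · rw [pen_PP]
    refine finrank_le_of_dep _ g fun v hv hli => ?_
    obtain ⟨a, ha, ha0, hs⟩ := h₀ v (fun j i => by
      have h1 : nab D (mat A U W c₀) (v j) = 0 := hv j
      have h2 := congrFun h1 i
      rw [nab_apply] at h2
      exact sub_eq_zero.1 h2)
    rw [Fintype.linearIndependent_iff] at hli
    apply ha0
    funext j
    have h3 := hli (fun j => (⟨a j, ha j⟩ : KK D)) (by
      funext i
      rw [Finset.sum_apply]
      exact hs i) j
    exact congrArg Subtype.val h3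
  · intro c hc'
    rw [pen_PP]
    obtain ⟨v, hv, hind⟩ := hT c hc'
    let w : Fin e → LinearMap.ker (nab D (mat A U W (c : F))) := fun j => ⟨v j, hv j⟩
    have hw : LinearIndependent (KK D) w := by
      rw [Fintype.linearIndependent_iff]
      intro a ha j
      have h1 := hind (fun j => (a j : F)) (fun j => (a j).2) (fun i => by
        have h2 := congrArg (fun z : LinearMap.ker (nab D (mat A U W (c : F))) => (z : Fin r → F) i) ha
        simp only [Submodule.coe_sum, Submodule.coe_smul, Finset.sum_apply, Submodule.coe_zero] at h2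
        exact h2) j
      exact Subtype.ext h1
    have h3 := hw.fintype_card_le_finrank
    rwa [Fintype.card_fin] at h3

/-- Vanishing `p`-curvature gives `r` independent horizontal vectors. -/
theorem sol_of_pcurv {p : ℕ} [hp : Fact p.Prime] [CharP F p] {x : F} (hx : D x = 1)
    (hD : ∀ f, (⇑D)^[p] f = 0) {r : ℕ} (A : Matrix (Fin r) (Fin r) F)
    (hA : ∀ v, (⇑(nab D A))^[p] v = 0) :
    ∃ v : Fin r → Fin r → F, (∀ j, nab D A (v j) = 0) ∧
      ∀ a : Fin r → F, (∀ j, D (a j) = 0) → (∀ i, ∑ j, a j * v j i = 0) → ∀ j, a j = 0 := by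
  obtain ⟨hfin, hfr⟩ := finrank_KK (p := p) hx hD
  obtain ⟨f, hf⟩ := exists_linearIndependent_of_le_finrank (full_of_pcurv hx hD A hA)
  refine ⟨fun j => (f j : Fin r → F), fun j => (f j).2, fun a ha hs j => ?_⟩
  rw [Fintype.linearIndependent_iff] at hf
  have h1 := hf (fun j => (⟨a j, ha j⟩ : KK D)) (by
    apply Subtype.ext
    funext i
    simp only [Submodule.coe_sum, Submodule.coe_smul, Finset.sum_apply, Submodule.coe_zero]
    exact hs i) j
  exact congrArg Subtype.val h1

end Pool.Agent.V11263.PCu
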