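import Pool.Agent.V11263.PCu.Loc

set_option autoImplicit false

/-!
The number of parameters with a full set of rational solutions in a family of matrix operators.
-/

namespace Pool.Agent.V11263.PCu

open Finset Module

variable {F : Type*} [Field F] {D : Derivation ℤ F F}

variable (D) in
/-- A derivation is linear over its constants. -/
def DL : End (KK D) F where
  toFun := D
  map_add' := map_add D
  map_smul' c f := by
    have hc : D (c : F) = 0 := c.2
    show D ((c : F) * f) = (c : F) * D f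
    rw [D.leibniz, hc]; simp

lemma DL_pow (i : ℕ) (f : F) : ((DL D) ^ i) f = (⇑D)^[i] f := by
  rw [Module.End.pow_apply]
  rfl

variable (D) in
/-- The matrix operator `∑ B_i D^i`. -/
def mop {n m : ℕ} (B : Fin (n + 1) → Matrix (Fin m) (Fin m) F) : End (KK D) (Fin m → F) :=
  ∑ i : Fin (n + 1), ((B i).mulVecLin.restrictScalars (KK D)) ∘ₗ
    LinearMap.pi fun b => ((DL D) ^ (i : ℕ)) ∘ₗ LinearMap.proj b

lemma mop_apply {n m : ℕ} (B : Fin (n + 1) → Matrix (Fin m) (Fin m) F) (y : Fin m → F) :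
    mop D B y = ∑ i : Fin (n + 1), (B i).mulVec fun b => (⇑D)^[(i : ℕ)] (y b) := by
  unfold mop
  rw [LinearMap.sum_apply]
  refine sum_congr rfl fun i _ => ?_
  show (B i).mulVec (fun b => ((DL D) ^ (i : ℕ)) (y b)) = _
  simp only [DL_pow]

/-- **At most `d p / n` values of the parameter give a full set of solutions.** -/
theorem loc2 {p : ℕ} [hp : Fact p.Prime] [CharP F p] {x : F} (hx : D x = 1)
    (hD : ∀ f, (⇑D)^[p] f = 0) {n m d : ℕ} (hd : 1 ≤ d) (hm : 1 ≤ m)
    (B : Fin d → Fin (n + 1) → Matrix (Fin m) (Fin m) F) (S : Matrix (Fin m) (Fin m) F)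
    (hS : IsUnit S.det) (T : Finset (KK D))
    (hT : ∀ c ∈ T, ∃ y : Fin (n * m) → Fin m → F,
      (∀ j, ∑ k : Fin d, (c : F) ^ (k : ℕ) •
        (∑ i : Fin (n + 1), (B k i).mulVec fun b => (⇑D)^[(i : ℕ)] (y j b)) +
          (c : F) ^ d • S.mulVec (y j) = 0) ∧
      ∀ a : Fin (n * m) → F, (∀ j, D (a j) = 0) → (∀ b, ∑ j, a j * y j b = 0) → a = 0) :
    T.card * n ≤ d * p := by
  classical
  obtain ⟨hfin, hfr⟩ := finrank_KK (p := p) hx hD
  choose! y hy hind using hT
  let TT : Fin d → End (KK D) (Fin m → F) := fun k =>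
    -((S⁻¹.mulVecLin.restrictScalars (KK D)) ∘ₗ mop D (B k))
  have h := count_T (K := KK D) (V := Fin m → F) hd TT ⊤ T (fun c => c) (fun a _ b _ h => h) y
    (fun _ _ _ => trivial) ?_ ?_
  · rw [finrank_top, finrank_pi_fintype, sum_const, card_univ, Fintype.card_fin, smul_eq_mul,
      hfr] at h
    have h1 : m * (T.card * n) ≤ m * (d * p) := by
      calc m * (T.card * n) = T.card * (n * m) := by ring
        _ ≤ d * (m * p) := h
        _ = m * (d * p) := by ring
    exact Nat.le_of_mul_le_mul_left h1 hm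
  · intro c hc j
    have h1 := hy c hc j
    have h2 := congrArg (fun w => S⁻¹.mulVec w) h1
    simp only [Matrix.mulVec_add, Matrix.mulVec_zero, Matrix.mulVec_smul, Matrix.mulVec_mulVec,
      Matrix.nonsing_inv_mul _ hS, Matrix.one_mulVec] at h2
    have h3 : (c ^ d) • y c j = (c : F) ^ d • y c j := by
      have : (c ^ d) • y c j = ((c ^ d : KK D) : F) • y c j := rfl
      rw [this]
      push_cast
      rfl
    have h4 : ∀ k : Fin d, c ^ (k : ℕ) • TT k (y c j) =
        -((c : F) ^ (k : ℕ) • S⁻¹.mulVec (∑ i : Fin (n + 1),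
          (B k i).mulVec fun b => (⇑D)^[(i : ℕ)] (y c j b))) := by
      intro k
      have h5 : TT k (y c j) = -(S⁻¹.mulVec (mop D (B k) (y c j))) := rfl
      have h6 : ∀ w : Fin m → F, c ^ (k : ℕ) • w = (c : F) ^ (k : ℕ) • w := by
        intro w
        have : (c ^ (k : ℕ)) • w = ((c ^ (k : ℕ) : KK D) : F) • w := rfl
        rw [this]
        push_cast
        rfl
      rw [h6, h5, mop_apply, smul_neg]
    rw [h3]
    simp only [h4, sum_neg_distrib]
    rw [eq_neg_iff_add_eq_zero, add_comm]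
    refine Eq.trans ?_ h2
    congr 1
    have h7 : S⁻¹.mulVec (∑ k : Fin d, (c : F) ^ (k : ℕ) •
        (∑ i : Fin (n + 1), (B k i).mulVec fun b => (⇑D)^[(i : ℕ)] (y c j b))) =
        ∑ k : Fin d, (c : F) ^ (k : ℕ) • S⁻¹.mulVec
          (∑ i : Fin (n + 1), (B k i).mulVec fun b => (⇑D)^[(i : ℕ)] (y c j b)) := by
      have := map_sum (S⁻¹.mulVecLin) (fun k : Fin d => (c : F) ^ (k : ℕ) •
        (∑ i : Fin (n + 1), (B k i).mulVec fun b => (⇑D)^[(i : ℕ)] (y c j b))) univ
      simp only [Matrix.mulVecLin_apply, Matrix.mulVec_smul] at this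
      exact this
    rw [h7]
  · intro c hc
    rw [Fintype.linearIndependent_iff]
    intro a ha j
    have h1 := hind c hc (fun j => (a j : F)) (fun j => (a j).2) (fun b => by
      have h2 := congrFun ha b
      rw [Finset.sum_apply] at h2
      exact h2)
    exact Subtype.ext (congrFun h1 j)

end Pool.Agent.V11263.PCu
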