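import Pool.Agent.V11263.PCu.HWd

set_option autoImplicit false

/-!
Ordinary reduction of the members of one-parameter families of hyperelliptic curves over number fields.
-/

namespace Pool.Agent.V11263.PCu

open Finset NumberField Ideal Polynomial

open Pool.Agent.Results.MP_2ca583_ag.HasseWittClassification (hasseWitt)

variable {K : Type*} [Field K] [NumberField K] {ι : Type*} [Fintype ι]

/-- good ordinary reduction modulo `P` -/
def GO (g : ι → ℕ) (l : ∀ i, Fin (2 * g i) → 𝓞 K) (p : ℕ) (P : Ideal (𝓞 K)) (ω : 𝓞 K) : Prop :=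
  ∀ i, (Function.Injective fun j => Ideal.Quotient.mk P (l i j)) ∧
    (∀ j, Ideal.Quotient.mk P ω ≠ Ideal.Quotient.mk P (l i j)) ∧
    (hasseWitt p (g i) ((X - C (Ideal.Quotient.mk P ω)) * ∏ j, (X - C (Ideal.Quotient.mk P (l i j))))).det ≠ 0

lemma po_le_norm {p : ℕ} (hp : p.Prime) {P : Ideal (𝓞 K)} (h : P ∈ po K p) : p ≤ absNorm P := by
  obtain ⟨h1, h2⟩ := (mem_po hp).1 h
  rw [absNorm_eq_pow_inertiaDeg' P hp]
  have h3 : absNorm P ≠ 1 := by
    rw [Ne, Ideal.absNorm_eq_one_iff]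
    exact h1.ne_top
  rw [absNorm_eq_pow_inertiaDeg' P hp] at h3
  refine Nat.le_self_pow (fun h0 => h3 ?_) p
  rw [h0, pow_zero]

lemma po_char {p : ℕ} (hp : p.Prime) {P : Ideal (𝓞 K)} (h : P ∈ po K p) : CharP (𝓞 K ⧸ P) p := by
  obtain ⟨h1, h2⟩ := (mem_po hp).1 h
  have h3 : Ideal.span {(p : ℤ)} = P.under ℤ := h2.over
  have h4 : (p : ℤ) ∈ P.under ℤ := by
    rw [← h3]
    exact Ideal.mem_span_singleton_self _
  rw [Ideal.mem_comap] at h4
  have h5 : ((p : ℕ) : 𝓞 K) ∈ P := by simpa using h4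
  have hp0 : ((p : ℕ) : 𝓞 K ⧸ P) = 0 := by
    rw [← map_natCast (Ideal.Quotient.mk P)]
    exact Ideal.Quotient.eq_zero_iff_mem.2 h5
  obtain ⟨q, hq⟩ := CharP.exists (𝓞 K ⧸ P)
  have h6 : q ∣ p := (CharP.cast_eq_zero_iff (𝓞 K ⧸ P) q p).1 hp0
  have : Nontrivial (𝓞 K ⧸ P) := Ideal.Quotient.nontrivial_iff.2 h1.ne_top
  rcases (Nat.dvd_prime hp).1 h6 with h7 | h7
  · subst h7
    exact absurd (CharP.char_ne_one (𝓞 K ⧸ P) 1 rfl) (by simp)
  · rwa [← h7]

/-- the reductions of different elements are different modulo the prime ideals over large primes -/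
lemma inj_large (g : ι → ℕ) (l : ∀ i, Fin (2 * g i) → 𝓞 K) (hl : ∀ i, Function.Injective (l i)) :
    ∃ N : ℕ, ∀ p : ℕ, p.Prime → N < p → ∀ P ∈ po K p, ∀ i,
      Function.Injective fun j => Ideal.Quotient.mk P (l i j) := by
  classical
  set δ : 𝓞 K := ∏ i, ∏ x ∈ (Finset.univ : Finset (Fin (2 * g i))).offDiag, (l i x.1 - l i x.2) with hδ
  have hδ0 : δ ≠ 0 := by
    rw [hδ, Finset.prod_ne_zero_iff]
    intro i _
    rw [Finset.prod_ne_zero_iff]
    intro x hx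
    rw [Finset.mem_offDiag] at hx
    exact sub_ne_zero.2 fun h => hx.2.2 (hl i h)
  refine ⟨(Algebra.norm ℤ δ).natAbs, fun p hp hN P hP i j k hjk => ?_⟩
  by_contra hne
  have h1 : l i j - l i k ∈ P := Ideal.Quotient.eq.1 hjk
  have h2 : δ ∈ P := by
    have h3 : (∏ x ∈ (Finset.univ : Finset (Fin (2 * g i))).offDiag, (l i x.1 - l i x.2)) ∈ P :=
      P.mem_of_dvd (Finset.dvd_prod_of_mem (fun x : Fin (2 * g i) × Fin (2 * g i) => l i x.1 - l i x.2)
        (show (j, k) ∈ (Finset.univ : Finset (Fin (2 * g i))).offDiag by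
          rw [Finset.mem_offDiag]; exact ⟨Finset.mem_univ _, Finset.mem_univ _, hne⟩)) h1
    exact P.mem_of_dvd (Finset.dvd_prod_of_mem
      (fun i => ∏ x ∈ (Finset.univ : Finset (Fin (2 * g i))).offDiag, (l i x.1 - l i x.2))
      (Finset.mem_univ i)) h3
  have h4 := prod_norm_le hδ0 {P} (fun Q hQ => by
    rw [Finset.mem_singleton] at hQ
    rw [hQ]
    exact po_ne_bot hp hP) (fun Q hQ => by
    rw [Finset.mem_singleton] at hQ
    rw [hQ]
    exact h2)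
  rw [Finset.prod_singleton] at h4
  have h5 := po_le_norm hp hP
  omega

/-- few classes are not good ordinary -/
lemma cls_go (g : ι → ℕ) (hg : ∀ i, 1 ≤ g i) (l : ∀ i, Fin (2 * g i) → 𝓞 K)
    (hl : ∀ i, Function.Injective (l i)) (N : ℕ) :
    ∃ P₀ : ℕ, 2 ≤ P₀ ∧ ClsK P₀ (fun p P ω => ¬ GO g l p P ω) (2 * N) ((∑ i, g i) * N + 1) := by
  classical
  obtain ⟨N₁, hN₁⟩ := inj_large g l hl
  refine ⟨max (max N₁ (2 * ∑ i, g i)) (max (3 * (∑ i, g i) * N) 2), (le_max_right _ _).trans (le_max_right _ _),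
    fun p hp hlt P hP S hS hS2 => ?_⟩
  have hp1 : N₁ < p := lt_of_le_of_lt ((le_max_left _ _).trans (le_max_left _ _)) hlt
  have hp2 : 2 * ∑ i, g i < p := lt_of_le_of_lt ((le_max_right _ _).trans (le_max_left _ _)) hlt
  have hp3 : 3 * (∑ i, g i) * N < p := lt_of_le_of_lt ((le_max_left _ _).trans (le_max_right _ _)) hlt
  have hp4 : 2 < p := lt_of_le_of_lt ((le_max_right _ _).trans (le_max_right _ _)) hlt
  have := Fact.mk hp
  have hPp := po_ne_bot hp hP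
  have hmax : P.IsMaximal := hPp.1.isMaximal hPp.2
  have hchar := po_char hp hP
  letI := Ideal.Quotient.field P
  have hinj : Set.InjOn (fun ω : 𝓞 K => Ideal.Quotient.mk P ω) S := by
    intro a ha b hb hab
    exact hS2 a ha b hb (Ideal.Quotient.eq.1 hab)
  have hi := hN₁ p hp hp1 P hP
  have hcount := hw_count (k := 𝓞 K ⧸ P) p hp4 g hg (fun i => by
      have : g i ≤ ∑ i, g i := Finset.single_le_sum (fun _ _ => Nat.zero_le _) (Finset.mem_univ i)
      omega) (fun i j => Ideal.Quotient.mk P (l i j)) hi (S.image fun ω : 𝓞 K => Ideal.Quotient.mk P ω) ?_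
  · rw [Finset.card_image_of_injOn hinj] at hcount
    have h1 : 2 * ((p - 1) / 2) ≤ p := by omega
    calc S.card * (2 * N) ≤ ((∑ i, g i) * ((p - 1) / 2) + 2 * ∑ i, g i) * (2 * N) :=
          Nat.mul_le_mul_right _ hcount
      _ = (∑ i, g i) * N * (2 * ((p - 1) / 2)) + 4 * ((∑ i, g i) * N) := by ring
      _ ≤ ((∑ i, g i) * N + 1) * p := by
          have h2 : 2 * ((p - 1) / 2) + 1 ≤ p := by omega
          have h3 : (∑ i, g i) * N * (2 * ((p - 1) / 2) + 1) ≤ (∑ i, g i) * N * p := Nat.mul_le_mul_left _ h2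
          have h4 : 3 * ((∑ i, g i) * N) ≤ p := by
            have : 3 * ((∑ i, g i) * N) = 3 * (∑ i, g i) * N := by ring
            omega
          nlinarith
  · intro t ht
    obtain ⟨ω, hω, rfl⟩ := Finset.mem_image.1 ht
    have h1 := hS ω hω
    unfold GO at h1
    push Not at h1
    obtain ⟨i, h2⟩ := h1
    refine ⟨i, ?_⟩
    by_contra hcon
    push Not at hcon
    exact hcon.2 (h2 (hi i) hcon.1)

open Classical in
/-- **Few members of a family have few primes of good ordinary reduction.** -/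
theorem ord_sieve (g : ι → ℕ) (hg : ∀ i, 1 ≤ g i) (l : ∀ i, Fin (2 * g i) → 𝓞 K)
    (hl : ∀ i, Function.Injective (l i)) {β θ : ℝ} (L : ℝ) (hβ0 : 0 < β) (hβ1 : β ≤ 1) (hθ0 : 0 < θ)
    (hθ : ((∑ i, g i : ℕ) : ℝ) < 2 * β ^ 2 * θ) :
    ∃ C : ℝ, ∀ X : ℝ, 2 ≤ X → (Set.ncard {ω : 𝓞 K | (∀ σ : K →+* ℂ, ‖σ ω‖ ≤ X) ∧
      ∑ p ∈ Icc 1 ⌊X ^ θ⌋₊ with p.Prime ∧ 2 < p, ∑ P ∈ po K p with GO g l p P ω, Real.log (absNorm P) / p ≤
        (1 - β) * Module.finrank ℚ K * θ * Real.log X + L} : ℝ) ≤ C * X ^ θ := by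
  obtain ⟨N, hN⟩ := exists_nat_gt (1 / (2 * β ^ 2 * θ - (∑ i, g i : ℕ)))
  have hpos : 0 < 2 * β ^ 2 * θ - (∑ i, g i : ℕ) := by linarith
  have hN0 : (0 : ℝ) < N := lt_trans (by positivity) hN
  have hN1 : 1 < N * (2 * β ^ 2 * θ - (∑ i, g i : ℕ)) := by
    rwa [div_lt_iff₀ hpos] at hN
  obtain ⟨P₀, hP₀, hcls⟩ := cls_go g hg l hl N
  obtain ⟨C, hC⟩ := nf_sieve (K := K) (2 * N) ((∑ i, g i) * N + 1) P₀ (Nat.le_add_left _ _) L hβ0 hβ1 hθ0 (by
    have h1 : ((((∑ i, g i) * N + 1 : ℕ)) : ℝ) = ((∑ i, g i : ℕ) : ℝ) * N + 1 := by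
      rw [Nat.cast_add, Nat.cast_mul, Nat.cast_one]
    rw [h1, Nat.cast_mul]
    push_cast at hN1 ⊢
    nlinarith)
  refine ⟨C, fun X hX => le_trans ?_ (hC _ hcls X hX)⟩
  have hfin : {a : 𝓞 K | (∀ σ : K →+* ℂ, ‖σ a‖ ≤ X) ∧
      badK P₀ (fun p P ω => ¬ GO g l p P ω) a (X ^ θ) ≤
        (1 - β) * Module.finrank ℚ K * θ * Real.log X + L}.Finite :=
    (fin_house X).subset fun a ha => ha.1
  refine Nat.cast_le.2 (Set.ncard_le_ncard ?_ hfin)
  rintro ω ⟨h1, h2⟩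
  refine ⟨h1, le_trans ?_ h2⟩
  unfold badK
  simp only [not_not]
  refine Finset.sum_le_sum_of_subset_of_nonneg ?_ fun p _ _ =>
    Finset.sum_nonneg fun P _ => div_nonneg (log_norm_nonneg P) (Nat.cast_nonneg _)
  intro p hp
  rw [mem_filter] at hp ⊢
  exact ⟨hp.1, hp.2.1, by omega⟩

/-- the number of the integers of bounded size -/
theorem house_count (K : Type*) [Field K] [NumberField K] : ∃ c : ℝ, 0 < c ∧ ∀ X : ℝ, 0 ≤ X →
    c * X ^ Module.finrank ℚ K ≤ (Set.ncard {ω : 𝓞 K | ∀ σ : K →+* ℂ, ‖σ ω‖ ≤ X} : ℝ) := by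
  classical
  let b := NumberField.RingOfIntegers.basis K
  let J := Module.Free.ChooseBasisIndex ℤ (𝓞 K)
  have hJ : Fintype.card J = Module.finrank ℚ K := by
    rw [← Module.finrank_eq_card_chooseBasisIndex, NumberField.RingOfIntegers.rank]
  let B : ℝ := 1 + ∑ σ : K →+* ℂ, ∑ j : J, ‖σ (b j)‖
  have hB : 1 ≤ B := by
    have : 0 ≤ ∑ σ : K →+* ℂ, ∑ j : J, ‖σ (b j)‖ :=
      Finset.sum_nonneg fun σ _ => Finset.sum_nonneg fun j _ => norm_nonneg _
    simp only [B]; linarith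
  have hBσ : ∀ σ : K →+* ℂ, ∑ j : J, ‖σ (b j)‖ ≤ B := by
    intro σ
    have h1 := Finset.single_le_sum (f := fun σ : K →+* ℂ => ∑ j : J, ‖σ (b j)‖)
      (fun σ _ => Finset.sum_nonneg fun j _ => norm_nonneg _) (Finset.mem_univ σ)
    simp only [B]
    linarith
  refine ⟨1 / B ^ Module.finrank ℚ K, by positivity, fun X hX => ?_⟩
  set N := ⌊X / B⌋₊ with hN
  let F : (J → Fin (N + 1)) → 𝓞 K := fun n => ∑ j, ((n j : ℕ) : ℤ) • b j
  have hF : Function.Injective F := by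
    intro n m hnm
    have h1 := b.repr.injective (a₁ := F n) (a₂ := F m)
    funext j
    have h2 := congrArg (fun x => b.repr x j) hnm
    simp only [F, map_sum, map_zsmul, Module.Basis.repr_self, Finsupp.coe_finset_sum, Finset.sum_apply,
      Finsupp.smul_apply, Finsupp.single_apply, smul_eq_mul, mul_ite, mul_one, mul_zero, Finset.sum_ite_eq',
      Finset.mem_univ, if_true] at h2
    exact Fin.ext (by exact_mod_cast h2)
  have hsub : Set.range F ⊆ {ω : 𝓞 K | ∀ σ : K →+* ℂ, ‖σ ω‖ ≤ X} := by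
    rintro _ ⟨n, rfl⟩ σ
    have h1 : σ ((F n : 𝓞 K) : K) = ∑ j, ((n j : ℕ) : ℂ) * σ (b j) := by
      show σ (algebraMap (𝓞 K) K (∑ j, ((n j : ℕ) : ℤ) • b j)) = _
      rw [map_sum, map_sum]
      refine Finset.sum_congr rfl fun j _ => ?_
      rw [zsmul_eq_mul, map_mul, map_mul]
      simp
    rw [h1]
    calc ‖∑ j, ((n j : ℕ) : ℂ) * σ (b j)‖ ≤ ∑ j, ‖((n j : ℕ) : ℂ) * σ (b j)‖ := norm_sum_le _ _
      _ ≤ ∑ j : J, (N : ℝ) * ‖σ (b j)‖ := by
          refine Finset.sum_le_sum fun j _ => ?_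
          rw [norm_mul, Complex.norm_natCast]
          refine mul_le_mul_of_nonneg_right ?_ (norm_nonneg _)
          exact_mod_cast Nat.lt_succ_iff.1 (n j).2
      _ = N * ∑ j : J, ‖σ (b j)‖ := by rw [Finset.mul_sum]
      _ ≤ N * B := mul_le_mul_of_nonneg_left (hBσ σ) (Nat.cast_nonneg _)
      _ ≤ X / B * B := mul_le_mul_of_nonneg_right (Nat.floor_le (by positivity)) (by linarith)
      _ = X := by field_simp
  have hfin := fin_house (K := K) X
  have h1 := Set.ncard_le_ncard hsub hfin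
  have h2 : (Set.range F).ncard = (N + 1) ^ Module.finrank ℚ K := by
    rw [← Set.image_univ, Set.ncard_image_of_injective _ hF, Set.ncard_univ, Nat.card_eq_fintype_card,
      Fintype.card_fun, Fintype.card_fin, hJ]
  rw [h2] at h1
  calc 1 / B ^ Module.finrank ℚ K * X ^ Module.finrank ℚ K = (X / B) ^ Module.finrank ℚ K := by
        rw [div_pow]; ring
    _ ≤ ((N : ℝ) + 1) ^ Module.finrank ℚ K :=
        pow_le_pow_left₀ (by positivity) (Nat.lt_floor_add_one _).le _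
    _ ≤ _ := by exact_mod_cast h1

/-- the sum over all prime ideals -/
theorem all_le (K : Type*) [Field K] [NumberField K] : ∃ C : ℝ, ∀ Y : ℝ, 1 ≤ Y →
    ∑ p ∈ Icc 1 ⌊Y⌋₊ with p.Prime ∧ 2 < p, ∑ P ∈ po K p, Real.log (absNorm P) / p ≤
      Module.finrank ℚ K * Real.log Y + C := by
  obtain ⟨N₁, hN₁⟩ := sum_log_po (K := K)
  obtain ⟨C₀, hC₀⟩ := Pool.Agent.Helper923.HMertens.mertens_log
  have hin : ∀ p : ℕ, 0 ≤ ∑ P ∈ po K p, Real.log (absNorm P) / p := fun p =>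
    sum_nonneg fun P _ => div_nonneg (log_norm_nonneg P) (Nat.cast_nonneg _)
  refine ⟨∑ p ∈ Icc 1 N₁, ∑ P ∈ po K p, Real.log (absNorm P) / p + Module.finrank ℚ K * C₀, fun Y hY => ?_⟩
  set N := ⌊Y⌋₊ with hN
  have hN1 : 1 ≤ N := Nat.le_floor (by exact_mod_cast hY)
  have hNY : (N : ℝ) ≤ Y := Nat.floor_le (by linarith)
  have hN0 : (0 : ℝ) < N := by exact_mod_cast hN1
  have hmert := (abs_le.1 (hC₀ N hN1)).2
  have hlog := Real.log_le_log hN0 hNY
  have hsub : (Icc 1 N).filter (fun p => p.Prime ∧ 2 < p) ⊆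
      Icc 1 N₁ ∪ (Icc 1 N).filter (fun p => p.Prime ∧ N₁ < p) := by
    intro p hp
    rw [mem_filter] at hp
    rw [mem_union]
    rcases Nat.lt_or_ge N₁ p with h | h
    · right
      exact mem_filter.2 ⟨hp.1, hp.2.1, h⟩
    · left
      exact mem_Icc.2 ⟨(mem_Icc.1 hp.1).1, h⟩
  have h1 := sum_le_sum_of_subset_of_nonneg hsub fun p _ _ => hin p
  have h2 := Finset.sum_union_inter (f := fun p : ℕ => ∑ P ∈ po K p, Real.log (absNorm P) / p)
    (s₁ := Icc 1 N₁) (s₂ := (Icc 1 N).filter (fun p => p.Prime ∧ N₁ < p))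
  have h3 : 0 ≤ ∑ p ∈ Icc 1 N₁ ∩ (Icc 1 N).filter (fun p => p.Prime ∧ N₁ < p),
      ∑ P ∈ po K p, Real.log (absNorm P) / p := sum_nonneg fun p _ => hin p
  have h4 : ∑ p ∈ (Icc 1 N).filter (fun p => p.Prime ∧ N₁ < p), ∑ P ∈ po K p, Real.log (absNorm P) / p ≤
      Module.finrank ℚ K * (Real.log Y + C₀) := by
    have h5 : ∑ p ∈ (Icc 1 N).filter (fun p => p.Prime ∧ N₁ < p), ∑ P ∈ po K p, Real.log (absNorm P) / p =
        Module.finrank ℚ K * ∑ p ∈ (Icc 1 N).filter (fun p => p.Prime ∧ N₁ < p), Real.log p / p := by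
      rw [mul_sum]
      refine sum_congr rfl fun p hp => ?_
      rw [mem_filter] at hp
      rw [← Finset.sum_div, hN₁ p hp.2.1 hp.2.2, mul_div_assoc]
    rw [h5]
    refine mul_le_mul_of_nonneg_left ?_ (Nat.cast_nonneg _)
    have h6 : ∑ p ∈ (Icc 1 N).filter (fun p => p.Prime ∧ N₁ < p), Real.log p / p ≤
        ∑ p ∈ (Icc 1 N).filter Nat.Prime, Real.log p / p := by
      refine sum_le_sum_of_subset_of_nonneg ?_ fun p _ _ =>
        div_nonneg (Real.log_natCast_nonneg p) (Nat.cast_nonneg p)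
      intro p hp
      rw [mem_filter] at hp ⊢
      exact ⟨hp.1, hp.2.1⟩
    linarith
  linarith

end Pool.Agent.V11263.PCu
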