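import Pool.Agent.V11263.PCu.Wr

set_option autoImplicit false

/-!
The number of constants for which a scalar operator depending polynomially on a parameter has many solutions.
-/

namespace Pool.Agent.V11263.PCu

open Finset Module

variable {F : Type*} [Field F] {D : Derivation ℤ F F}

variable (D) in
/-- The operator `∑ b_i D^i`. -/
def sop {n : ℕ} (b : Fin (n + 1) → F) : End (KK D) F :=
  ∑ i : Fin (n + 1), (LinearMap.mulLeft (KK D) (b i)) ∘ₗ ((DL D) ^ (i : ℕ))

lemma sop_apply {n : ℕ} (b : Fin (n + 1) → F) (y : F) :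
    sop D b y = ∑ i : Fin (n + 1), b i * (⇑D)^[(i : ℕ)] y := by
  unfold sop
  rw [LinearMap.sum_apply]
  refine sum_congr rfl fun i _ => ?_
  show b i * ((DL D) ^ (i : ℕ)) y = _
  rw [DL_pow]

variable (D) in
/-- `e` independent solutions -/
def SolE {n : ℕ} (b : Fin (n + 1) → F) (e : ℕ) : Prop :=
  ∃ y : Fin e → F, (∀ j, ∑ i : Fin (n + 1), b i * (⇑D)^[(i : ℕ)] (y j) = 0) ∧
    ∀ a : Fin e → F, (∀ j, D (a j) = 0) → ∑ j, a j * y j = 0 → ∀ j, a j = 0

lemma not_solE {n g : ℕ} {b : Fin (n + 1) → F} [Module.Finite (KK D) F] (h : ¬ SolE D b (g + 1)) :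
    finrank (KK D) (LinearMap.ker (sop D b)) ≤ g := by
  refine finrank_le_of_dep _ g fun v hv hli => h ⟨v, fun j => ?_, fun c hc hs j => ?_⟩
  · rw [← sop_apply]
    exact hv j
  · rw [Fintype.linearIndependent_iff] at hli
    have := hli (fun j => (⟨c j, hc j⟩ : KK D)) (by exact hs) j
    exact congrArg Subtype.val this

lemma solE_le {n e : ℕ} {b : Fin (n + 1) → F} [Module.Finite (KK D) F] (h : SolE D b e) :
    e ≤ finrank (KK D) (LinearMap.ker (sop D b)) := by
  obtain ⟨y, hy, hind⟩ := h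
  have hmem : ∀ j, y j ∈ LinearMap.ker (sop D b) := by
    intro j
    rw [LinearMap.mem_ker, sop_apply]
    exact hy j
  have hw : LinearIndependent (KK D) (fun j => (⟨y j, hmem j⟩ : LinearMap.ker (sop D b))) := by
    rw [Fintype.linearIndependent_iff]
    intro a ha j
    have h2 := congrArg (fun z : LinearMap.ker (sop D b) => (z : F)) ha
    simp only [Submodule.coe_sum, Submodule.coe_smul, Submodule.coe_zero] at h2
    exact Subtype.ext (hind (fun j => (a j : F)) (fun j => (a j).2) h2 j)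
  have h3 := hw.fintype_card_le_finrank
  rwa [Fintype.card_fin] at h3

/-- **At most `d p / (e - g)` constants give `e` independent solutions.** -/
theorem loc3 {p : ℕ} [hp : Fact p.Prime] [CharP F p] {x : F} (hx : D x = 1)
    (hD : ∀ f, (⇑D)^[p] f = 0) {n d g e : ℕ} (hd : 1 ≤ d) (hg : g < e)
    (B : Fin (d + 1) → Fin (n + 1) → F)
    (hreg : ¬ SolE D (B (Fin.last d)) (g + 1) ∨
      ∃ c : F, D c = 0 ∧ ¬ SolE D (fun i => ∑ k : Fin (d + 1), c ^ (k : ℕ) * B k i) (g + 1))
    (T : Finset F) (hT : ∀ c ∈ T, D c = 0 ∧ SolE D (fun i => ∑ k : Fin (d + 1), c ^ (k : ℕ) * B k i) e) :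
    T.card * (e - g) ≤ d * p := by
  classical
  obtain ⟨hfin, hfr⟩ := finrank_KK (p := p) hx hD
  let P : Fin (d + 1) → End (KK D) F := fun k => sop D (B k)
  have hpen : ∀ c : KK D, pen P c = sop D (fun i => ∑ k : Fin (d + 1), (c : F) ^ (k : ℕ) * B k i) := by
    intro c
    refine LinearMap.ext fun y => ?_
    rw [pen_apply, sop_apply]
    have h1 : ∀ k : Fin (d + 1), c ^ (k : ℕ) • P k y =
        (c : F) ^ (k : ℕ) * ∑ i : Fin (n + 1), B k i * (⇑D)^[(i : ℕ)] y := by
      intro k
      rw [← sop_apply]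
      show ((c ^ (k : ℕ) : KK D) : F) * _ = _
      push_cast
      rfl
    simp only [h1, mul_sum, sum_mul]
    rw [sum_comm]
    refine sum_congr rfl fun i _ => sum_congr rfl fun k _ => ?_
    ring
  let T' : Finset (KK D) := T.attach.image fun c => ⟨c.1, (hT c.1 c.2).1⟩
  have hcard : T'.card = T.card := by
    rw [Finset.card_image_of_injective, Finset.card_attach]
    intro a b hab
    exact Subtype.ext (congrArg (fun z : KK D => (z : F)) hab)
  have hN : ∀ c ∈ T', e ≤ finrank (KK D) (LinearMap.ker (pen P c)) := by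
    intro c hc
    obtain ⟨c', -, rfl⟩ := Finset.mem_image.1 hc
    rw [hpen]
    exact solE_le (hT c'.1 c'.2).2
  rw [← hcard, ← hfr]
  rcases hreg with h | ⟨c, hc, h⟩
  · exact count_inf (G := g) (N := e) hd P (not_solE h) _ hN
  · have h4 := count (G := g) (N := e) hd hg P ⊤ (fun _ _ _ => trivial) ⟨c, hc⟩ ?_ _ hN
    · rwa [finrank_top] at h4
    · rw [hpen]
      exact not_solE h

end Pool.Agent.V11263.PCu
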