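import Mathlib

set_option autoImplicit false

/-!
A weighted form of Gallagher's larger sieve for arbitrary sets.
-/

namespace Pool.Agent.V11263.PCu

open Finset

lemma sq_card_le {Ω Γ : Type*} [DecidableEq Γ] [DecidableEq Ω] (S : Finset Ω) (c : Ω → Γ) :
    (S.card : ℝ) ^ 2 ≤ ((S.image c).card : ℝ) * (((S ×ˢ S).filter fun x => c x.1 = c x.2).card : ℝ) := by
  have h1 : (S.card : ℝ) = ∑ a ∈ S.image c, ((S.filter fun q => c q = a).card : ℝ) := by
    rw [← Nat.cast_sum]
    congr 1
    exact card_eq_sum_card_fiberwise fun q hq => mem_image_of_mem _ hq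
  have h2 : (((S ×ˢ S).filter fun x => c x.1 = c x.2).card : ℝ) =
      ∑ a ∈ S.image c, ((S.filter fun q => c q = a).card : ℝ) ^ 2 := by
    have h3 : ((S ×ˢ S).filter fun x => c x.1 = c x.2).card =
        ∑ a ∈ S.image c, (((S ×ˢ S).filter fun x => c x.1 = c x.2).filter fun x => c x.1 = a).card := by
      refine card_eq_sum_card_fiberwise fun x hx => ?_
      have hx' := hx
      simp only [coe_filter, mem_product, Set.mem_setOf_eq] at hx'
      exact mem_image_of_mem c hx'.1.1
    rw [h3, Nat.cast_sum]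
    refine sum_congr rfl fun a _ => ?_
    have h4 : (((S ×ˢ S).filter fun x => c x.1 = c x.2).filter fun x => c x.1 = a) =
        (S.filter fun q => c q = a) ×ˢ (S.filter fun q => c q = a) := by
      ext x
      simp only [mem_filter, mem_product]
      constructor
      · rintro ⟨⟨⟨h1, h2⟩, h3⟩, h4⟩
        exact ⟨⟨h1, h4⟩, h2, h3 ▸ h4⟩
      · rintro ⟨⟨h1, h2⟩, h3, h4⟩
        exact ⟨⟨⟨h1, h3⟩, h2.trans h4.symm⟩, h2⟩
    rw [h4, card_product]
    push_cast
    ring
  rw [h1, h2]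
  exact sq_sum_le_card_mul_sum_sq

open Classical in
/-- **The weighted larger sieve.** -/
theorem wsieve {Ω ι : Type*} {Γ : ι → Type*} (S : Finset Ω) (Q : Finset ι) (w l : ι → ℝ)
    (c : ∀ i, Ω → Γ i) (good : ι → Ω → Prop) {n d V W L : ℝ} (hn : 0 ≤ n) (hd : 0 ≤ d) (hV : 0 ≤ V)
    (hw : ∀ i ∈ Q, 0 ≤ w i) (hl : ∀ i ∈ Q, 0 ≤ l i) (hW : ∑ i ∈ Q, w i ≤ W)
    (hcl : ∀ i ∈ Q, w i * (((S.filter (good i)).image (c i)).card * n) ≤ d * l i)
    (hpair : ∀ a ∈ S, ∀ b ∈ S, a ≠ b → ∑ i ∈ Q.filter (fun i => c i a = c i b), l i ≤ L)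
    (hL : 0 ≤ L)
    (hgood : ∀ a ∈ S, V ≤ ∑ i ∈ Q.filter (fun i => good i a), w i) :
    (S.card : ℝ) * (n * V ^ 2 - W * d * L) ≤ W * d * ∑ i ∈ Q, l i := by
  rcases S.eq_empty_or_nonempty with h | hne
  · rw [h, card_empty, Nat.cast_zero, zero_mul]
    have hW0 : 0 ≤ W := (sum_nonneg hw).trans hW
    exact mul_nonneg (mul_nonneg hW0 hd) (sum_nonneg hl)
  have hs0 : (0 : ℝ) < S.card := by exact_mod_cast hne.card_pos
  have hW0 : 0 ≤ W := (sum_nonneg hw).trans hW
  -- the weighted count of the good pairs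
  have h1 : (S.card : ℝ) * V ≤ ∑ i ∈ Q, w i * ((S.filter (good i)).card : ℝ) := by
    calc (S.card : ℝ) * V = ∑ a ∈ S, V := by rw [sum_const, nsmul_eq_mul]
      _ ≤ ∑ a ∈ S, ∑ i ∈ Q.filter (fun i => good i a), w i := sum_le_sum hgood
      _ = ∑ a ∈ S, ∑ i ∈ Q, if good i a then w i else 0 := by
          refine sum_congr rfl fun a _ => ?_
          rw [sum_filter]
      _ = ∑ i ∈ Q, ∑ a ∈ S, if good i a then w i else 0 := sum_comm
      _ = ∑ i ∈ Q, w i * ((S.filter (good i)).card : ℝ) := by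
          refine sum_congr rfl fun i _ => ?_
          rw [← sum_filter, sum_const, nsmul_eq_mul, mul_comm]
  have h2 : (∑ i ∈ Q, w i * ((S.filter (good i)).card : ℝ)) ^ 2 ≤
      W * ∑ i ∈ Q, w i * ((S.filter (good i)).card : ℝ) ^ 2 := by
    have h := sum_mul_sq_le_sq_mul_sq Q (fun i => Real.sqrt (w i))
      (fun i => Real.sqrt (w i) * ((S.filter (good i)).card : ℝ))
    have e1 : ∑ i ∈ Q, Real.sqrt (w i) * (Real.sqrt (w i) * ((S.filter (good i)).card : ℝ)) =
        ∑ i ∈ Q, w i * ((S.filter (good i)).card : ℝ) := by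
      refine sum_congr rfl fun i hi => ?_
      rw [← mul_assoc, Real.mul_self_sqrt (hw i hi)]
    have e2 : ∑ i ∈ Q, Real.sqrt (w i) ^ 2 = ∑ i ∈ Q, w i := by
      refine sum_congr rfl fun i hi => ?_
      rw [Real.sq_sqrt (hw i hi)]
    have e3 : ∑ i ∈ Q, (Real.sqrt (w i) * ((S.filter (good i)).card : ℝ)) ^ 2 =
        ∑ i ∈ Q, w i * ((S.filter (good i)).card : ℝ) ^ 2 := by
      refine sum_congr rfl fun i hi => ?_
      rw [mul_pow, Real.sq_sqrt (hw i hi)]
    rw [e1, e2, e3] at h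
    refine h.trans (mul_le_mul_of_nonneg_right hW ?_)
    exact sum_nonneg fun i hi => mul_nonneg (hw i hi) (sq_nonneg _)
  have h3 : ∀ i ∈ Q, n * (w i * ((S.filter (good i)).card : ℝ) ^ 2) ≤
      d * (l i * (((S ×ˢ S).filter fun x => c i x.1 = c i x.2).card : ℝ)) := by
    intro i hi
    have hcs := sq_card_le (S.filter (good i)) (c i)
    have hmono : ((((S.filter (good i)) ×ˢ (S.filter (good i))).filter fun x => c i x.1 = c i x.2).card : ℝ) ≤
        (((S ×ˢ S).filter fun x => c i x.1 = c i x.2).card : ℝ) := by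
      have : (((S.filter (good i)) ×ˢ (S.filter (good i))).filter fun x => c i x.1 = c i x.2).card ≤
          ((S ×ˢ S).filter fun x => c i x.1 = c i x.2).card :=
        card_le_card (filter_subset_filter _ (product_subset_product (filter_subset _ _) (filter_subset _ _)))
      exact_mod_cast this
    calc n * (w i * ((S.filter (good i)).card : ℝ) ^ 2)
        = (w i * n) * ((S.filter (good i)).card : ℝ) ^ 2 := by ring
      _ ≤ (w i * n) * ((((S.filter (good i)).image (c i)).card : ℝ) *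
            (((S ×ˢ S).filter fun x => c i x.1 = c i x.2).card : ℝ)) := by
          refine mul_le_mul_of_nonneg_left (hcs.trans ?_) (mul_nonneg (hw i hi) hn)
          exact mul_le_mul_of_nonneg_left hmono (Nat.cast_nonneg _)
      _ = (w i * ((((S.filter (good i)).image (c i)).card : ℝ) * n)) *
            (((S ×ˢ S).filter fun x => c i x.1 = c i x.2).card : ℝ) := by ring
      _ ≤ (d * l i) * (((S ×ˢ S).filter fun x => c i x.1 = c i x.2).card : ℝ) :=
          mul_le_mul_of_nonneg_right (hcl i hi) (Nat.cast_nonneg _)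
      _ = _ := by ring
  have h4 : ∑ i ∈ Q, l i * (((S ×ˢ S).filter fun x => c i x.1 = c i x.2).card : ℝ) ≤
      (S.card : ℝ) * ∑ i ∈ Q, l i + (S.card : ℝ) ^ 2 * L := by
    calc ∑ i ∈ Q, l i * (((S ×ˢ S).filter fun x => c i x.1 = c i x.2).card : ℝ)
        = ∑ i ∈ Q, ∑ x ∈ S ×ˢ S, if c i x.1 = c i x.2 then l i else 0 := by
          refine sum_congr rfl fun i _ => ?_
          rw [← sum_filter, sum_const, nsmul_eq_mul, mul_comm]
      _ = ∑ x ∈ S ×ˢ S, ∑ i ∈ Q, if c i x.1 = c i x.2 then l i else 0 := sum_comm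
      _ ≤ ∑ x ∈ S ×ˢ S, ((if x.1 = x.2 then ∑ i ∈ Q, l i else 0) + L) := by
          refine sum_le_sum fun x hx => ?_
          rw [mem_product] at hx
          rw [← sum_filter]
          split_ifs with h
          · have : ∑ i ∈ Q.filter (fun i => c i x.1 = c i x.2), l i ≤ ∑ i ∈ Q, l i :=
              sum_le_sum_of_subset_of_nonneg (filter_subset _ _) fun i hi _ => hl i hi
            linarith
          · rw [zero_add]
            exact hpair x.1 hx.1 x.2 hx.2 h
      _ = (S.card : ℝ) * ∑ i ∈ Q, l i + (S.card : ℝ) ^ 2 * L := by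
          rw [sum_add_distrib, sum_const, card_product, nsmul_eq_mul]
          congr 1
          · rw [← sum_filter, sum_const, nsmul_eq_mul]
            congr 2
            have : (S ×ˢ S).filter (fun x => x.1 = x.2) = S.image fun a => (a, a) := by
              ext x
              simp only [mem_filter, mem_product, mem_image]
              constructor
              · rintro ⟨⟨h1, _⟩, h2⟩
                exact ⟨x.1, h1, Prod.ext rfl h2⟩
              · rintro ⟨a, ha, rfl⟩
                exact ⟨⟨ha, ha⟩, rfl⟩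
            rw [this, card_image_of_injective]
            intro a b hab
            exact congrArg Prod.fst hab
          · push_cast
            ring
  have h5 : n * ((S.card : ℝ) * V) ^ 2 ≤
      W * (d * ((S.card : ℝ) * ∑ i ∈ Q, l i + (S.card : ℝ) ^ 2 * L)) := by
    have h6 : ((S.card : ℝ) * V) ^ 2 ≤ (∑ i ∈ Q, w i * ((S.filter (good i)).card : ℝ)) ^ 2 :=
      pow_le_pow_left₀ (by positivity) h1 2
    calc n * ((S.card : ℝ) * V) ^ 2
        ≤ n * (W * ∑ i ∈ Q, w i * ((S.filter (good i)).card : ℝ) ^ 2) :=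
          mul_le_mul_of_nonneg_left (h6.trans h2) hn
      _ = W * ∑ i ∈ Q, n * (w i * ((S.filter (good i)).card : ℝ) ^ 2) := by
          rw [← mul_sum]; ring
      _ ≤ W * ∑ i ∈ Q, d * (l i * (((S ×ˢ S).filter fun x => c i x.1 = c i x.2).card : ℝ)) :=
          mul_le_mul_of_nonneg_left (sum_le_sum h3) hW0
      _ = W * (d * ∑ i ∈ Q, l i * (((S ×ˢ S).filter fun x => c i x.1 = c i x.2).card : ℝ)) := by
          rw [← mul_sum]
      _ ≤ _ := mul_le_mul_of_nonneg_left (mul_le_mul_of_nonneg_left h4 hd) hW0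
  have h8 : (S.card : ℝ) * ((S.card : ℝ) * (n * V ^ 2 - W * d * L)) ≤
      S.card * (W * d * ∑ i ∈ Q, l i) := by nlinarith
  exact le_of_mul_le_mul_left h8 hs0

end Pool.Agent.V11263.PCu
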