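import Pool.Agent.V11263.PCu.Ops

set_option autoImplicit false

/-!
An operator of order `o` has at most `o` independent solutions; pencils which are regular at infinity.
-/

namespace Pool.Agent.V11263.PCu

open Finset Module

section inf

variable {K V : Type*} [Field K] [AddCommGroup V] [Module K V]

/-- The count when the member at infinity is the regular one. -/
theorem count_inf [FiniteDimensional K V] {d G N : ℕ} (hd : 1 ≤ d) (P : Fin (d + 1) → End K V)
    (h0 : finrank K (LinearMap.ker (P (Fin.last d))) ≤ G) (S : Finset K)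
    (hS : ∀ c ∈ S, N ≤ finrank K (LinearMap.ker (pen P c))) :
    S.card * (N - G) ≤ d * finrank K V := by
  classical
  obtain ⟨C, hC⟩ := (LinearMap.ker (P (Fin.last d))).exists_isCompl
  have hinj : LinearMap.ker ((P (Fin.last d)) ∘ₗ C.subtype) = ⊥ := by
    rw [LinearMap.ker_eq_bot']
    intro c hc
    have h1 : (c : V) ∈ LinearMap.ker (P (Fin.last d)) := hc
    have h2 : (c : V) ∈ LinearMap.ker (P (Fin.last d)) ⊓ C := ⟨h1, c.2⟩
    rw [hC.inf_eq_bot] at h2
    exact Subtype.ext h2
  obtain ⟨g, hg⟩ := ((P (Fin.last d)) ∘ₗ C.subtype).exists_leftInverse_of_injective hinj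
  let E : End K V := C.subtype ∘ₗ g
  have hE : ∀ v ∈ C, E (P (Fin.last d) v) = v := by
    intro v hv
    have h := LinearMap.congr_fun hg ⟨v, hv⟩
    have h' : g (P (Fin.last d) v) = ⟨v, hv⟩ := h
    show ((g (P (Fin.last d) v) : C) : V) = v
    rw [h']
  let T : Fin d → End K V := fun i => -(E ∘ₗ P i.castSucc)
  have hex : ∀ c ∈ S, ∃ y : Fin (N - G) → V, LinearIndependent K y ∧
      ∀ j, y j ∈ LinearMap.ker (pen P c) ⊓ C := by
    intro c hc
    have h1 : N - G ≤ finrank K (LinearMap.ker (pen P c) ⊓ C : Submodule K V) := by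
      have h2 := Submodule.finrank_sup_add_finrank_inf_eq (LinearMap.ker (pen P c)) C
      have h3 := Submodule.finrank_le (LinearMap.ker (pen P c) ⊔ C)
      have h4 := Submodule.finrank_add_eq_of_isCompl hC
      have h5 := hS c hc
      omega
    obtain ⟨f, hf⟩ := exists_linearIndependent_of_le_finrank h1
    refine ⟨fun j => (f j : V), ?_, fun j => (f j).2⟩
    exact hf.map' (Submodule.subtype _) (Submodule.ker_subtype _)
  choose! y hy1 hy2 using hex
  have h := count_T hd T ⊤ S (fun c => c) (fun a _ b _ hab => hab) y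
    (fun _ _ _ => trivial) ?_ hy1
  · rwa [finrank_top] at h
  · intro c hc j
    obtain ⟨h1, h2⟩ := hy2 c hc j
    have h3 : pen P c (y c j) = 0 := h1
    rw [pen_apply, Fin.sum_univ_castSucc] at h3
    have h5 := congrArg E h3
    rw [map_add, map_smul, hE _ h2, map_zero, map_sum] at h5
    simp only [map_smul, Fin.val_last, Fin.val_castSucc] at h5
    simp only [T, LinearMap.neg_apply, LinearMap.comp_apply, smul_neg, sum_neg_distrib]
    exact eq_neg_of_add_eq_zero_right h5

end inf

variable {F : Type*} [Field F] {D : F →+ F} (hleib : ∀ a b, D (a * b) = D a * b + a * D b)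

include hleib in
lemma D_one : D 1 = 0 := by
  have h := hleib 1 1
  simp only [mul_one, one_mul] at h
  exact left_eq_add.1 h

include hleib in
/-- A nonzero subspace which is stable under the derivation contains a nonzero constant vector. -/
lemma exists_const {e : ℕ} (N : Submodule F (Fin e → F)) (hN : ∀ f ∈ N, (fun j => D (f j)) ∈ N) :
    ∀ (k : ℕ) (f : Fin e → F), f ∈ N → f ≠ 0 → Set.ncard {j | f j ≠ 0} ≤ k →
      ∃ a ∈ N, a ≠ 0 ∧ ∀ j, D (a j) = 0 := by
  classical
  intro k
  induction k with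
  | zero =>
    intro f _ hf0 hk
    exfalso
    have h1 : {j | f j ≠ 0} = ∅ := (Set.ncard_eq_zero (Set.toFinite _)).1 (Nat.le_zero.1 hk)
    apply hf0
    funext j
    by_contra hj
    have : j ∈ {j | f j ≠ 0} := hj
    rw [h1] at this
    exact this
  | succ k ih =>
    intro f hf hf0 hk
    obtain ⟨j₀, hj₀⟩ := Function.ne_iff.1 hf0
    have hj₀' : f j₀ ≠ 0 := hj₀
    let g : Fin e → F := (f j₀)⁻¹ • f
    have hg : g ∈ N := N.smul_mem _ hf
    have hg1 : g j₀ = 1 := by
      show (f j₀)⁻¹ * f j₀ = 1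
      exact inv_mul_cancel₀ hj₀'
    by_cases h0 : (fun j => D (g j)) = 0
    · exact ⟨g, hg, fun h => by rw [h] at hg1; exact zero_ne_one hg1, fun j => congrFun h0 j⟩
    · refine ih _ (hN g hg) h0 ?_
      have hsub : {j | (fun j => D (g j)) j ≠ 0} ⊆ {j | f j ≠ 0} \ {j₀} := by
        intro j hj
        refine ⟨fun hfj => hj ?_, fun hjj => hj ?_⟩
        · show D ((f j₀)⁻¹ * f j) = 0
          rw [hfj, mul_zero, map_zero]
        · have hjj' : j = j₀ := hjj
          show D (g j) = 0
          rw [hjj', hg1]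
          exact D_one hleib
      have h1 : {j | (fun j => D (g j)) j ≠ 0}.ncard ≤ ({j | f j ≠ 0} \ {j₀}).ncard :=
        Set.ncard_le_ncard hsub (Set.toFinite _)
      have h2 : ({j | f j ≠ 0} \ {j₀}).ncard + 1 = {j | f j ≠ 0}.ncard :=
        Set.ncard_sdiff_singleton_add_one hj₀' (Set.toFinite _)
      refine le_trans h1 ?_
      omega

include hleib in
/-- An operator of order `o` has at most `o` solutions which are independent over the constants. -/
lemma order_le {n e : ℕ} (a : Fin (n + 1) → F) (o : Fin (n + 1)) (ho : a o ≠ 0)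
    (ho' : ∀ i, o < i → a i = 0) (y : Fin e → F)
    (hy : ∀ j, ∑ i, a i * (⇑D)^[(i : ℕ)] (y j) = 0)
    (hind : ∀ c : Fin e → F, (∀ j, D (c j) = 0) → ∑ j, c j * y j = 0 → ∀ j, c j = 0) :
    e ≤ o := by
  classical
  by_contra hcon
  push Not at hcon
  -- relations between the vectors of derivatives
  let Φ : (Fin e → F) →ₗ[F] (Fin (o : ℕ) → F) :=
    { toFun := fun f i => ∑ j, f j * (⇑D)^[(i : ℕ)] (y j)
      map_add' := by
        intro f g
        funext i
        simp only [Pi.add_apply, add_mul, sum_add_distrib]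
      map_smul' := by
        intro c f
        funext i
        simp only [Pi.smul_apply, smul_eq_mul, RingHom.id_apply, mul_sum, mul_assoc] }
  have hlt : finrank F (Fin (o : ℕ) → F) < finrank F (Fin e → F) := by
    rw [finrank_fin_fun, finrank_fin_fun]
    exact hcon
  have hker : LinearMap.ker Φ ≠ ⊥ := by
    intro h
    have := LinearMap.finrank_le_finrank_of_injective (LinearMap.ker_eq_bot.1 h)
    omega
  obtain ⟨f, hf, hf0⟩ := (Submodule.ne_bot_iff _).1 hker
  -- the relation at the order `o`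
  have htop : ∀ f ∈ LinearMap.ker Φ, ∑ j, f j * (⇑D)^[(o : ℕ)] (y j) = 0 := by
    intro f hf
    have h1 : ∑ j, f j * (∑ i, a i * (⇑D)^[(i : ℕ)] (y j)) = 0 := by
      simp only [hy, mul_zero, sum_const_zero]
    have h2 : ∑ j, f j * (∑ i, a i * (⇑D)^[(i : ℕ)] (y j)) =
        ∑ i, a i * ∑ j, f j * (⇑D)^[(i : ℕ)] (y j) := by
      simp only [mul_sum]
      rw [sum_comm]
      refine sum_congr rfl fun i _ => sum_congr rfl fun j _ => ?_
      ring
    rw [h2, sum_eq_single o] at h1
    · exact (mul_eq_zero.1 h1).resolve_left ho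
    · intro i _ hi
      rcases lt_or_gt_of_ne hi with hlt | hgt
      · have h3 : Φ f ⟨i, hlt⟩ = 0 := congrFun hf ⟨i, hlt⟩
        have h4 : ∑ j, f j * (⇑D)^[(i : ℕ)] (y j) = 0 := h3
        rw [h4, mul_zero]
      · rw [ho' i hgt, zero_mul]
    · intro h
      exact absurd (mem_univ _) h
  have hstab : ∀ f ∈ LinearMap.ker Φ, (fun j => D (f j)) ∈ LinearMap.ker Φ := by
    intro f hf
    rw [LinearMap.mem_ker]
    funext i
    have h1 : ∑ j, f j * (⇑D)^[(i : ℕ)] (y j) = 0 := congrFun hf i
    have h2 : ∑ j, f j * (⇑D)^[(i : ℕ) + 1] (y j) = 0 := by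
      rcases Nat.lt_or_ge ((i : ℕ) + 1) o with h | h
      · exact congrFun hf ⟨(i : ℕ) + 1, h⟩
      · have hi : (i : ℕ) + 1 = o := le_antisymm i.2 h
        rw [hi]
        exact htop f hf
    have h3 := congrArg D h1
    rw [map_zero, map_sum] at h3
    have h4 : ∀ j, D (f j * (⇑D)^[(i : ℕ)] (y j)) =
        D (f j) * (⇑D)^[(i : ℕ)] (y j) + f j * (⇑D)^[(i : ℕ) + 1] (y j) := by
      intro j
      rw [hleib, Function.iterate_succ_apply']
    simp only [h4, sum_add_distrib, h2, add_zero] at h3
    exact h3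
  obtain ⟨c, hc, hc0, hcD⟩ := exists_const hleib (LinearMap.ker Φ) hstab _ f hf hf0 le_rfl
  apply hc0
  funext j
  refine hind c hcD ?_ j
  rcases Nat.eq_zero_or_pos (o : ℕ) with h0 | h0
  · have := htop c hc
    rw [h0] at this
    exact this
  · exact congrFun hc ⟨0, h0⟩

include hleib in
/-- A nonzero operator of order at most `o` has at most `o` independent solutions. -/
lemma order_le' {n e o : ℕ} (a : Fin (n + 1) → F) (ha : ∃ i, a i ≠ 0)
    (ho : ∀ i : Fin (n + 1), o < i → a i = 0) (y : Fin e → F)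
    (hy : ∀ j, ∑ i, a i * (⇑D)^[(i : ℕ)] (y j) = 0)
    (hind : ∀ c : Fin e → F, (∀ j, D (c j) = 0) → ∑ j, c j * y j = 0 → ∀ j, c j = 0) :
    e ≤ o := by
  classical
  have hne : (univ.filter fun i => a i ≠ 0).Nonempty := by
    obtain ⟨i, hi⟩ := ha
    exact ⟨i, by simp [hi]⟩
  set i₀ := (univ.filter fun i => a i ≠ 0).max' hne with hi₀
  have h1 : a i₀ ≠ 0 := (mem_filter.1 (max'_mem _ hne)).2
  have h2 : ∀ i, i₀ < i → a i = 0 := by
    intro i hi
    by_contra h
    have := le_max' (univ.filter fun i => a i ≠ 0) i (by simp [h])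
    exact absurd hi (not_lt.2 this)
  have h3 := order_le hleib a i₀ h1 h2 y hy hind
  have h4 : (i₀ : ℕ) ≤ o := by
    by_contra h
    exact h1 (ho i₀ (by omega))
  omega

end Pool.Agent.V11263.PCu
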